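import Pool.Agent.U363.EX.Dig

/-!
Examples of polynomials with a single fractional slope at `p`; the main theorem.
-/

set_option autoImplicit false

namespace Pool.Agent.U363.EX

open Polynomial Finset Pool.Agent.H323R2

/-- scaling of the roots by an integer -/
lemma Eis.scale {g : ℤ[X]} {p κ r D : ℕ} (hp : p.Prime) (hg : Eis g p κ r D) (Λ : ℤ)
    (hΛ : Λ ≠ 0) : Eis (g.scaleRoots Λ) p (κ + padicValInt p Λ) r D := by
  set v := padicValInt p Λ with hv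
  have hp' : Fact p.Prime := ⟨hp⟩
  have hp0 : (p : ℤ) ≠ 0 := by exact_mod_cast hp.ne_zero
  have hdvd : (p : ℤ) ^ v ∣ Λ := padicValInt_dvd Λ
  obtain ⟨Λ', hΛ'⟩ := hdvd
  have hpi : Prime (p : ℤ) := Nat.prime_iff_prime_int.1 hp
  have hnd : ¬ (p : ℤ) ∣ Λ' := by
    rintro ⟨c, hc⟩
    have h1 : (p : ℤ) ^ (v + 1) ∣ Λ := ⟨c, by rw [hΛ', hc, pow_succ]; ring⟩
    rw [padicValInt_dvd_iff] at h1
    rcases h1 with h1 | h1
    · exact hΛ h1
    · omega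
  have hdeg : (g.scaleRoots Λ).natDegree = D := by rw [natDegree_scaleRoots, hg.deg]
  have hcoeff : ∀ i, (g.scaleRoots Λ).coeff i =
      (p : ℤ) ^ (v * (D - i)) * (g.coeff i * Λ' ^ (D - i)) := by
    intro i
    rw [coeff_scaleRoots, hg.deg, hΛ', mul_pow, ← pow_mul]; ring
  have hD := hg.two_le
  refine ⟨(monic_scaleRoots_iff Λ).2 hg.monic, hdeg, hD, hg.r_pos, hg.r_lt, ?_, ?_, ?_, ?_⟩
  · intro m hm hm'
    rw [hcoeff, show (κ + v) * (D - m) + 1 = v * (D - m) + (κ * (D - m) + 1) by ring, pow_add]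
    exact mul_dvd_mul_left _ (Dvd.dvd.mul_right (hg.coeff_dvd m hm hm') _)
  · intro m hm hm'
    rw [hcoeff, show (κ + v) * (D - m) + (r + 1 - m) = v * (D - m) + (κ * (D - m) + (r + 1 - m)) by
      ring, pow_add]
    exact mul_dvd_mul_left _ (Dvd.dvd.mul_right (hg.coeff_dvd' m hm hm') _)
  · rw [hcoeff, Nat.sub_zero, show (κ + v) * D + r = v * D + (κ * D + r) by ring, pow_add]
    exact mul_dvd_mul_left _ (Dvd.dvd.mul_right hg.zero_dvd _)
  · intro h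
    rw [hcoeff, Nat.sub_zero, show (κ + v) * D + r + 1 = v * D + (κ * D + r + 1) by ring,
      pow_add] at h
    have h1 := (mul_dvd_mul_iff_left (pow_ne_zero _ hp0)).1 h
    have hcop : IsCoprime ((p : ℤ) ^ (κ * D + r + 1)) (Λ' ^ D) :=
      (((Prime.coprime_iff_not_dvd hpi).2 hnd).pow_left).pow_right
    exact hg.zero_not (hcop.dvd_of_dvd_mul_right h1)

lemma eis_of_eisenstein {g : ℤ[X]} {p D : ℕ} (hg : g.Monic) (hD : g.natDegree = D) (h2 : 2 ≤ D)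
    (hdvd : ∀ m, m < D → (p : ℤ) ∣ g.coeff m) (hnot : ¬ (p : ℤ) ^ 2 ∣ g.coeff 0) :
    Eis g p 0 1 D := by
  refine ⟨hg, hD, h2, le_rfl, by omega, ?_, ?_, ?_, ?_⟩
  · intro m _ hm'
    simpa using hdvd m hm'
  · intro m hm hm'
    have h1 : (p : ℤ) ^ (0 * (D - m) + (1 + 1 - m)) ∣ (p : ℤ) ^ 1 := by
      apply pow_dvd_pow
      omega
    exact h1.trans (by simpa using hdvd m hm')
  · simpa using hdvd 0 (by omega)
  · simpa using hnot

lemma eis_root {p D d : ℕ} (hp : p.Prime) (hD : 2 ≤ D) (hd : d ≠ 0)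
    (hv : ¬ D ∣ padicValNat p d) :
    Eis (X ^ D - C (d : ℤ)) p (padicValNat p d / D) (padicValNat p d % D) D := by
  have hp' : Fact p.Prime := ⟨hp⟩
  set v := padicValNat p d with hv'
  have hcoeff : ∀ m, 1 ≤ m → m < D → (X ^ D - C (d : ℤ) : ℤ[X]).coeff m = 0 := by
    intro m hm hm'
    rw [coeff_sub, coeff_X_pow, coeff_C, if_neg (by omega), if_neg (by omega), sub_zero]
  have hcoeff0 : (X ^ D - C (d : ℤ) : ℤ[X]).coeff 0 = -(d : ℤ) := by
    rw [coeff_sub, coeff_X_pow, coeff_C, if_neg (by omega), if_pos rfl, zero_sub]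
  have hvv : v / D * D + v % D = v := Nat.div_add_mod' v D
  refine ⟨monic_X_pow_sub_C _ (by omega), natDegree_X_pow_sub_C, hD, ?_,
    Nat.mod_lt _ (by omega), ?_, ?_, ?_, ?_⟩
  · exact Nat.pos_of_ne_zero fun h => hv (Nat.dvd_of_mod_eq_zero h)
  · intro m hm hm'
    rw [hcoeff m hm hm']; exact dvd_zero _
  · intro m hm hm'
    rw [hcoeff m hm hm']; exact dvd_zero _
  · rw [hcoeff0, hvv, dvd_neg]
    have : p ^ v ∣ d := pow_padicValNat_dvd
    exact_mod_cast this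
  · rw [hcoeff0, hvv, dvd_neg]
    have : ¬ p ^ (v + 1) ∣ d := pow_succ_padicValNat_not_dvd hd
    exact_mod_cast this

/-- The number of failures of a linear relation, with explicit exponent. -/
def Bound (b : ℕ) (x : ℝ) (m : ℕ) (q : ℕ → ℤ) (e : ℤ) (τ : ℕ) : Prop :=
  ∀ G : ℤ, ∃ C : ℝ, 0 < C ∧ ∀ g : ℕ → ℤ, Expansion b G x g →
    ∀ N : ℕ, (N : ℝ) ≤ C * (1 + (fails g m q e N : ℝ)) ^ τ

theorem main {p : ℕ} (hp : p.Prime) {b : ℕ} (hb : 2 ≤ b) (hpb : ¬ p ∣ b) {f : ℤ[X]} {κ r D s : ℕ}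
    (hf : Eis f p κ r D) (hs : D ≤ p ^ s) (θ : ℝ) (hθ : aeval θ f = 0) (x : ℝ) (m : ℕ) (q : ℕ → ℤ)
    (e W v Λ a : ℤ) (hW : W ≠ 0) (hv : W * e = ((b : ℤ) - 1) * v) (hΛ : Λ ≠ 0)
    (hx : ((W * ∑ j ∈ range (m + 1), q j * (b : ℤ) ^ j : ℤ) : ℝ) * x = Λ * θ + a) :
    Bound b x m q e (D + (κ + padicValInt p Λ + 1) * (p ^ s - 1)) := by
  have hp' : Fact p.Prime := ⟨hp⟩
  refine fails_bound b hb x m q e W v hW hv _ ?_
  rw [hx]
  apply rate_add_int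
  refine rate_of_eis hb hpb (hf.scale hp Λ hΛ) hs _ ?_
  rw [Polynomial.eval_map]
  have h1 : eval₂ (Int.castRingHom ℝ) θ f = 0 := by
    have : aeval θ f = eval₂ (Int.castRingHom ℝ) θ f := by
      rw [aeval_def]; rfl
    rw [← this]; exact hθ
  have h2 := scaleRoots_eval₂_eq_zero (Int.castRingHom ℝ) (s := Λ) h1
  simpa using h2

/-- the usual digits form an expansion -/
lemma expansion_usual (b : ℕ) (hb : 2 ≤ b) (x : ℝ) :
    Expansion b ((b : ℤ) - 1) x (fun k => ⌊x * (b : ℝ) ^ k⌋ % (b : ℤ)) := by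
  have hb0 : (0 : ℤ) < b := by exact_mod_cast (by omega : 0 < b)
  have hbR : (0 : ℝ) < b := by positivity
  have hb2 : (2 : ℝ) ≤ b := by exact_mod_cast hb
  refine ⟨?_, ⌊x⌋, ?_⟩
  · intro k _
    have r1 := Int.emod_nonneg ⌊x * (b : ℝ) ^ k⌋ hb0.ne'
    have r2 := Int.emod_lt_of_pos ⌊x * (b : ℝ) ^ k⌋ hb0
    rw [abs_of_nonneg r1]
    omega
  · have hnn : ∀ k : ℕ, 0 ≤ ((⌊x * (b : ℝ) ^ (k + 1)⌋ % (b : ℤ) : ℤ) : ℝ) / (b : ℝ) ^ (k + 1) := by
      intro k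
      have r1 := Int.emod_nonneg ⌊x * (b : ℝ) ^ (k + 1)⌋ hb0.ne'
      have : (0 : ℝ) ≤ ((⌊x * (b : ℝ) ^ (k + 1)⌋ % (b : ℤ) : ℤ) : ℝ) := by exact_mod_cast r1
      positivity
    rw [hasSum_iff_tendsto_nat_of_nonneg hnn]
    have hpart : ∀ K : ℕ, ∑ k ∈ range K,
        ((⌊x * (b : ℝ) ^ (k + 1)⌋ % (b : ℤ) : ℤ) : ℝ) / (b : ℝ) ^ (k + 1) =
        (⌊x * (b : ℝ) ^ K⌋ : ℝ) / (b : ℝ) ^ K - ⌊x⌋ := by
      intro K
      induction K with
      | zero => simp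
      | succ K ih =>
        rw [Finset.sum_range_succ, ih, digit_eq b hb]
        push_cast
        rw [pow_succ]
        field_simp
        ring
    simp_rw [hpart]
    apply Filter.Tendsto.sub_const
    have hlim : Filter.Tendsto (fun K : ℕ => (1 / 2 : ℝ) ^ K) Filter.atTop (nhds 0) :=
      tendsto_pow_atTop_nhds_zero_of_lt_one (by norm_num) (by norm_num)
    rw [tendsto_iff_norm_sub_tendsto_zero]
    refine squeeze_zero (fun _ => norm_nonneg _) (fun K => ?_) hlim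
    rw [Real.norm_eq_abs]
    have hbK : (0 : ℝ) < (b : ℝ) ^ K := pow_pos hbR K
    have a1 := Int.floor_le (x * (b : ℝ) ^ K)
    have a2 := Int.lt_floor_add_one (x * (b : ℝ) ^ K)
    have e1 : (⌊x * (b : ℝ) ^ K⌋ : ℝ) / (b : ℝ) ^ K - x =
        ((⌊x * (b : ℝ) ^ K⌋ : ℝ) - x * (b : ℝ) ^ K) / (b : ℝ) ^ K := by
      field_simp
    rw [e1, abs_div, abs_of_pos hbK, div_le_iff₀ hbK, abs_le]
    have a3 : 1 ≤ (1 / 2 : ℝ) ^ K * (b : ℝ) ^ K := by
      rw [← mul_pow]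
      apply one_le_pow₀
      linarith
    constructor <;> linarith

end Pool.Agent.U363.EX
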