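import Pool.Agent.U363.EX.Sqrt

/-!
The failures of a relation form an additive basis, up to logarithmic errors.
-/

set_option autoImplicit false

namespace Pool.Agent.U363.EX

open Polynomial Finset Pool.Agent.H323R2

/-- localisation of the exceptional places -/
lemma near {b : ℕ} {f P : ℤ[X]} {K : Finset ℕ} (h0 : 0 ∈ K) (hP : Cov P K) {D : ℕ}
    (hD : f.natDegree ≤ D) {R l : ℕ} (hne : S b (f.comp P) R ≠ 0)
    (hbig : |S b (f.comp P) (R + l)| < (b : ℤ) ^ l) : ∃ r ∈ T K D, R ≤ r ∧ r ≤ R + l := by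
  by_contra hcon
  push Not at hcon
  have hz : ∀ k ≤ l, S b (f.comp P) (R + k) = (b : ℤ) ^ k * S b (f.comp P) R := by
    intro k
    induction k with
    | zero => intro _; simp
    | succ k ih =>
      intro hk
      have h1 : (f.comp P).coeff (R + k + 1) = 0 := by
        by_contra h2
        have h3 := cov_comp h0 hP hD _ h2
        have h4 := hcon _ h3 (by omega)
        omega
      rw [← add_assoc, S_succ, h1, ih (by omega), pow_succ]
      ring
  rw [hz l le_rfl, abs_mul, abs_pow, Nat.abs_cast] at hbig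
  have h5 : (1 : ℤ) ≤ |S b (f.comp P) R| := Int.one_le_abs hne
  have h6 : (0 : ℤ) ≤ (b : ℤ) ^ l := by positivity
  nlinarith

lemma T_add {K : Finset ℕ} {a c s r : ℕ} (hs : s ∈ T K a) (hr : r ∈ T K c) : s + r ∈ T K (a + c) := by
  induction c generalizing r with
  | zero =>
    simp only [T, Finset.mem_singleton] at hr
    subst hr; simpa using hs
  | succ c ih =>
    obtain ⟨r', hr', i, hi, rfl⟩ := Finset.mem_image₂.1 hr
    exact Finset.mem_image₂.2 ⟨s + r', ih hr', i, hi, by ring⟩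

lemma mul_mem_T {K : Finset ℕ} {i : ℕ} (hi : i ∈ K) (c : ℕ) : c * i ∈ T K c := by
  induction c with
  | zero => simp [T]
  | succ c ih => exact Finset.mem_image₂.2 ⟨c * i, ih, i, hi, by ring⟩

/-- `q ^ j h + δ` is the sum of `q` elements of `K` and, for `1 ≤ t < j`, of `q ^ t` times a sum of
`q - 1` elements of `K`. -/
def Rep (K : Finset ℕ) (q l j h : ℕ) : Prop :=
  ∃ (a : ℕ → ℕ) (δ : ℕ), a 0 ∈ T K q ∧ (∀ t, 1 ≤ t → t < j → a t ∈ T K (q - 1)) ∧
    δ ≤ q ^ j * l ∧ q ^ j * h + δ = ∑ t ∈ range j, q ^ t * a t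

lemma rep_succ {K : Finset ℕ} {q l j h : ℕ} (hq : 1 ≤ q) (hj : 1 ≤ j) (hr : Rep K q l j h) :
    Rep K q l (j + 1) h := by
  obtain ⟨a, δ, h0, h1, h2, h3⟩ := hr
  obtain ⟨q', rfl⟩ : ∃ q', q = q' + 1 := ⟨q - 1, by omega⟩
  obtain ⟨s, hs, i, hi, hsi⟩ := Finset.mem_image₂.1 h0
  obtain ⟨j', rfl⟩ : ∃ j', j = j' + 1 := ⟨j - 1, by omega⟩
  refine ⟨fun t => if t = 0 then (q' + 1) * i else if t = 1 then s else a (t - 1), (q' + 1) * δ,
    ?_, ?_, ?_, ?_⟩
  · simp only [if_true]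
    exact mul_mem_T hi _
  · intro t ht ht'
    have ht0 : t ≠ 0 := by omega
    simp only [if_neg ht0, Nat.add_sub_cancel]
    split_ifs with h4
    · exact hs
    · have := h1 (t - 1) (by omega) (by omega)
      simpa using this
  · rw [pow_succ]
    calc (q' + 1) * δ ≤ (q' + 1) * ((q' + 1) ^ (j' + 1) * l) := Nat.mul_le_mul_left _ h2
      _ = _ := by ring
  · rw [Finset.sum_range_succ', Finset.sum_range_succ'] at *
    simp only [pow_zero, one_mul, if_true] at *
    have e : ∀ k ∈ range j', (q' + 1) ^ (k + 1 + 1) * (if k + 1 + 1 = 0 then (q' + 1) * i else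
        if k + 1 + 1 = 1 then s else a (k + 1 + 1 - 1)) = (q' + 1) * ((q' + 1) ^ (k + 1) * a (k + 1)) := by
      intro k _
      rw [if_neg (by omega), if_neg (by omega), show k + 1 + 1 - 1 = k + 1 by omega]
      ring
    rw [Finset.sum_congr rfl e, ← Finset.mul_sum]
    simp only [zero_add, pow_one, one_ne_zero, if_false]
    have e2 : (q' + 1) ^ (j' + 1 + 1) * h + (q' + 1) * δ =
        (q' + 1) * ((q' + 1) ^ (j' + 1) * h + δ) := by ring
    rw [e2, h3, ← hsi]
    ring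

lemma rep_of_one {K : Finset ℕ} {q l j h : ℕ} (hq : 1 ≤ q) (hj : 1 ≤ j) (hr : Rep K q l 1 h) :
    Rep K q l j h := by
  induction j, hj using Nat.le_induction with
  | base => exact hr
  | succ j hj ih => exact rep_succ hq hj ih

/-- the chain -/
lemma rep_chain {p b : ℕ} [Fact p.Prime] (hpb : ¬ p ∣ b) {f : ℤ[X]} {κ D s : ℕ}
    (hf : Pre f p κ D) (hs : D ≤ p ^ s) {P : ℤ[X]} {K : Finset ℕ} (h0K : 0 ∈ K) (hcov : Cov P K)
    {N l : ℕ} (hnear : ∀ R ≤ N, S b (f.comp P) R ≠ 0 → ∃ r ∈ T K D, R ≤ r ∧ r ≤ R + l) :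
    ∀ j ≤ κ, ∀ n, (p ^ s) ^ (j + 1) * n ≤ N → ∀ h ∈ OO b p P (j + 1) n,
      Rep K (p ^ s) l (j + 1) h := by
  classical
  have hp : p.Prime := Fact.out
  set q := p ^ s with hq
  have hq0 : 0 < q := pow_pos hp.pos _
  have hD := hf.pos
  intro j
  induction j with
  | zero =>
    intro _ n hn h hh
    have h1 := step_sub hpb hf hs (Nat.zero_le κ) h0K hcov n hh
    rw [← hq, Finset.mem_union, Finset.mem_filter] at h1
    have hempty : ∀ n', OO b p P 0 n' = ∅ := by
      intro n'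
      unfold OO
      rw [Finset.filter_eq_empty_iff]
      intro x _
      simp
    rw [hempty, Finset.image₂_empty_right, Finset.union_empty] at h1
    rcases h1 with h1 | ⟨h2, h3⟩
    · exact absurd h1 (Finset.notMem_empty _)
    · obtain ⟨s', hs', R, hR, hsum⟩ := Finset.mem_image₂.1 h3
      unfold EE at hR
      rw [Finset.mem_filter, Finset.mem_range] at hR
      rw [pow_one] at hn
      obtain ⟨r, hr, hr1, hr2⟩ := hnear R (by omega) hR.2
      refine ⟨fun _ => s' + r, r - R, ?_, ?_, ?_, ?_⟩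
      · have := T_add hs' hr
        rwa [show q - D + D = q by omega] at this
      · intro t ht ht'; omega
      · calc r - R ≤ l := by omega
          _ ≤ q ^ 1 * l := by rw [pow_one]; exact Nat.le_mul_of_pos_left _ hq0
      · simp only [zero_add, pow_one, Finset.sum_range_one, pow_zero, one_mul]
        omega
  | succ j ih =>
    intro hj n hn h hh
    have hqn : q ^ (j + 1) * (q * n) ≤ N := by
      rw [← mul_assoc, ← pow_succ]; exact hn
    have hqn' : q * n ≤ N := by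
      refine le_trans ?_ hqn
      exact Nat.le_mul_of_pos_left _ (pow_pos hq0 _)
    have ih' := ih (by omega) (q * n) hqn
    have h1 := step_sub hpb hf hs hj h0K hcov n hh
    rw [← hq, Finset.mem_union, Finset.mem_filter] at h1
    rcases h1 with h1 | ⟨h2, h3⟩
    · exact rep_succ hq0 (by omega) (ih' h h1)
    · obtain ⟨s', hs', R, hR, hsum⟩ := Finset.mem_image₂.1 h3
      rw [Finset.mem_union] at hR
      rcases hR with hR | hR
      · unfold EE at hR
        rw [Finset.mem_filter, Finset.mem_range] at hR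
        obtain ⟨r, hr, hr1, hr2⟩ := hnear R (by omega) hR.2
        apply rep_of_one hq0 (by omega)
        refine ⟨fun _ => s' + r, r - R, ?_, ?_, ?_, ?_⟩
        · have := T_add hs' hr
          rwa [show q - D + D = q by omega] at this
        · intro t ht ht'; omega
        · calc r - R ≤ l := by omega
            _ ≤ q ^ 1 * l := by rw [pow_one]; exact Nat.le_mul_of_pos_left _ hq0
        · simp only [pow_one, Finset.sum_range_one, pow_zero, one_mul]
          omega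
      · obtain ⟨s2, hs2, o, ho, hsum2⟩ := Finset.mem_image₂.1 hR
        obtain ⟨a, δ, g0, g1, g2, g3⟩ := ih' o ho
        have hss : s' + s2 ∈ T K (q - 1) := by
          have := T_add hs' hs2
          rwa [show q - D + (D - 1) = q - 1 by omega] at this
        refine ⟨fun t => if t = j + 1 then s' + s2 else a t, δ, ?_, ?_, ?_, ?_⟩
        · simp only
          rw [if_neg (by omega)]
          exact g0
        · intro t ht ht'
          simp only
          split_ifs with h4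
          · exact hss
          · exact g1 t ht (by omega)
        · refine g2.trans ?_
          apply Nat.mul_le_mul_right
          exact Nat.pow_le_pow_right hq0 (by omega)
        · rw [Finset.sum_range_succ]
          have e : ∑ t ∈ range (j + 1), q ^ t * (if t = j + 1 then s' + s2 else a t) =
              ∑ t ∈ range (j + 1), q ^ t * a t := by
            apply Finset.sum_congr rfl
            intro t ht
            rw [Finset.mem_range] at ht
            rw [if_neg (by omega)]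
          simp only [if_true] at e ⊢
          rw [e, ← g3]
          have e3 : q * h = s' + (s2 + o) := by rw [hsum2, hsum]
          calc q ^ (j + 1 + 1) * h + δ = q ^ (j + 1) * (q * h) + δ := by ring
            _ = q ^ (j + 1) * (s' + (s2 + o)) + δ := by rw [e3]
            _ = _ := by ring

/-- all places -/
lemma rep_all {p b : ℕ} [Fact p.Prime] (hpb : ¬ p ∣ b) {f : ℤ[X]} {κ r D s : ℕ}
    (hf : Eis f p κ r D) (hs : D ≤ p ^ s) {P : ℤ[X]} {K : Finset ℕ} (h0K : 0 ∈ K) (hcov : Cov P K)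
    {l R : ℕ} (hnear : ∀ R' ≤ (p ^ s) ^ (κ + 1) * R, S b (f.comp P) R' ≠ 0 →
      ∃ r ∈ T K D, R' ≤ r ∧ r ≤ R' + l) :
    ∃ (u : ℕ) (a : ℕ → ℕ) (δ : ℕ), u ∈ T K (D - 1) ∧ a 0 ∈ T K (p ^ s) ∧
      (∀ t, 1 ≤ t → t < κ + 1 → a t ∈ T K (p ^ s - 1)) ∧ δ ≤ (p ^ s) ^ (κ + 1) * l ∧
      (p ^ s) ^ (κ + 1) * R + δ = (p ^ s) ^ (κ + 1) * u + ∑ t ∈ range (κ + 1), (p ^ s) ^ t * a t := by
  classical
  have hp : p.Prime := Fact.out
  set q := p ^ s with hq
  have hq0 : 0 < q := pow_pos hp.pos _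
  have hD := hf.two_le
  have hqk : 0 < q ^ (κ + 1) := pow_pos hq0 _
  have hRq : R ≤ q ^ (κ + 1) * R := Nat.le_mul_of_pos_left _ hqk
  have h1 := top_sub hpb hf h0K hcov R (Finset.mem_range.2 (Nat.lt_succ_self R))
  rw [Finset.mem_union] at h1
  rcases h1 with h1 | h1
  · unfold EE at h1
    rw [Finset.mem_filter] at h1
    obtain ⟨r, hr, hr1, hr2⟩ := hnear R hRq h1.2
    obtain ⟨D', rfl⟩ : ∃ D', D = D' + 1 := ⟨D - 1, by omega⟩
    obtain ⟨u, hu, i, hi, hui⟩ := Finset.mem_image₂.1 hr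
    refine ⟨u, fun t => if t = 0 then q * i else (q - 1) * i, q ^ (κ + 1) * (r - R), hu, ?_, ?_,
      ?_, ?_⟩
    · simp only [if_true]
      exact mul_mem_T hi _
    · intro t ht _
      simp only
      rw [if_neg (by omega)]
      exact mul_mem_T hi _
    · apply Nat.mul_le_mul_left
      omega
    · have e : ∀ k : ℕ, ∑ t ∈ range (k + 1), q ^ t * (if t = 0 then q * i else (q - 1) * i) =
          q ^ (k + 1) * i := by
        intro k
        induction k with
        | zero => simp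
        | succ k ih =>
          rw [Finset.sum_range_succ, ih, if_neg (by omega)]
          obtain ⟨q', hq'⟩ : ∃ q', q = q' + 1 := ⟨q - 1, by omega⟩
          rw [hq', Nat.add_sub_cancel]
          ring
      rw [e κ]
      have e2 : R + (r - R) = u + i := by rw [hui]; omega
      calc q ^ (κ + 1) * R + q ^ (κ + 1) * (r - R) = q ^ (κ + 1) * (R + (r - R)) := by ring
        _ = q ^ (κ + 1) * (u + i) := by rw [e2]
        _ = _ := by ring
  · obtain ⟨u, hu, o, ho, huo⟩ := Finset.mem_image₂.1 h1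
    obtain ⟨a, δ, g0, g1, g2, g3⟩ :=
      rep_chain hpb hf.pre hs h0K hcov hnear κ le_rfl R le_rfl o ho
    refine ⟨u, a, δ, hu, g0, g1, g2, ?_⟩
    rw [← g3, ← huo]
    ring

/-- a lower bound for the lengths of the windows -/
lemma exists_window (C u B : ℝ) (hC : 0 < C) (hu : 0 ≤ u) (hB : 0 ≤ B) (D : ℕ) :
    ∃ e : ℕ, ∀ (b : ℕ), 2 ≤ b → ∀ N : ℕ,
      C * (1 + u + B * ((N + e * (Nat.log 2 (N + 2) + 1) : ℕ) : ℝ)) ^ D <
        (b : ℝ) ^ (e * (Nat.log 2 (N + 2) + 1)) := by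
  set M : ℝ := C * (1 + u + B) ^ D with hM
  have hM0 : 0 < M := by positivity
  have hlim := tendsto_pow_const_div_const_pow_of_one_lt D (show (1 : ℝ) < 2 by norm_num)
  have hev := (hlim.comp (Filter.tendsto_add_atTop_nat 1)).eventually
    (gt_mem_nhds (show (0 : ℝ) < 1 / (M * 2 ^ (D + 1)) by positivity))
  obtain ⟨e, he1, he2⟩ := (hev.and (Filter.eventually_ge_atTop D)).exists
  refine ⟨e, ?_⟩
  intro b hb N
  simp only [Function.comp_apply] at he1
  rw [div_lt_div_iff₀ (by positivity) (by positivity), one_mul] at he1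
  have he3 : M * ((e : ℝ) + 1) ^ D < 2 ^ (e - D) := by
    have h1 : (2 : ℝ) ^ (e + 1) = 2 ^ (e - D) * 2 ^ (D + 1) := by
      rw [← pow_add]; congr 1; omega
    rw [h1] at he1
    have h2 : (M * ((e : ℝ) + 1) ^ D) * 2 ^ (D + 1) < 2 ^ (e - D) * 2 ^ (D + 1) := by
      push_cast at he1
      linarith
    exact lt_of_mul_lt_mul_right h2 (by positivity)
  set g := Nat.log 2 (N + 2) + 1 with hg
  have hg1 : 1 ≤ g := by omega
  have hN : (N : ℝ) ≤ 2 ^ g := by
    have : N + 2 < 2 ^ g := Nat.lt_pow_succ_log_self (by norm_num) _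
    exact_mod_cast (by omega : N ≤ 2 ^ g)
  have hgg : (g : ℝ) ≤ 2 ^ g := by
    exact_mod_cast Nat.lt_two_pow_self.le
  have h1g : (1 : ℝ) ≤ 2 ^ g := one_le_pow₀ (by norm_num)
  have h3 : 1 + u + B * ((N + e * g : ℕ) : ℝ) ≤ (1 + u + B) * ((e : ℝ) + 1) * 2 ^ g := by
    push_cast
    have e0 : (0 : ℝ) ≤ e := by positivity
    have a1 : B * (N : ℝ) ≤ B * 2 ^ g := mul_le_mul_of_nonneg_left hN hB
    have a2 : B * ((e : ℝ) * g) ≤ B * ((e : ℝ) * 2 ^ g) :=
      mul_le_mul_of_nonneg_left (mul_le_mul_of_nonneg_left hgg e0) hB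
    have a3 : (1 + u) * 1 ≤ (1 + u) * 2 ^ g := mul_le_mul_of_nonneg_left h1g (by linarith)
    have a4 : 0 ≤ (1 + u) * ((e : ℝ) * 2 ^ g) := by positivity
    nlinarith
  have hX0 : 0 ≤ 1 + u + B * ((N + e * g : ℕ) : ℝ) := by positivity
  calc C * (1 + u + B * ((N + e * g : ℕ) : ℝ)) ^ D
      ≤ C * ((1 + u + B) * ((e : ℝ) + 1) * 2 ^ g) ^ D := by
        apply mul_le_mul_of_nonneg_left _ hC.le
        exact pow_le_pow_left₀ hX0 h3 _
    _ = M * ((e : ℝ) + 1) ^ D * (2 ^ g) ^ D := by rw [hM, mul_pow, mul_pow]; ring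
    _ < 2 ^ (e - D) * (2 ^ g) ^ D := mul_lt_mul_of_pos_right he3 (by positivity)
    _ ≤ (2 ^ (e - D)) ^ g * (2 ^ g) ^ D := by
        apply mul_le_mul_of_nonneg_right _ (by positivity)
        exact le_self_pow₀ (one_le_pow₀ (by norm_num)) (by omega)
    _ = 2 ^ (e * g) := by
        rw [← pow_mul, ← pow_mul, ← pow_add]
        congr 1
        obtain ⟨c, rfl⟩ : ∃ c, e = c + D := ⟨e - D, by omega⟩
        rw [Nat.add_sub_cancel]; ring
    _ ≤ (b : ℝ) ^ (e * g) := by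
        apply pow_le_pow_left₀ (by norm_num)
        exact_mod_cast hb

theorem basis_of_eis {p b : ℕ} [Fact p.Prime] (hb : 2 ≤ b) (hpb : ¬ p ∣ b) {f : ℤ[X]}
    {κ r D s : ℕ} (hf : Eis f p κ r D) (hs : D ≤ p ^ s) (t : ℝ)
    (ht : (f.map (Int.castRingHom ℝ)).eval t = 0) (C0 B : ℝ) (hB : 0 ≤ B) :
    ∃ A : ℝ, 0 < A ∧ ∀ U : ℕ → ℤ, (∀ K, |(U K : ℝ) - (b : ℝ) ^ K * t| ≤ C0) →
      (∀ k, |(dlt b U (k + 1) : ℝ)| ≤ B) → ∀ R : ℕ, ∃ K : Finset ℕ,
      (∀ k ∈ K, k = 0 ∨ dlt b U k ≠ 0) ∧ ∃ (u : ℕ) (a : ℕ → ℕ) (δ : ℕ), u ∈ T K (D - 1) ∧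
        a 0 ∈ T K (p ^ s) ∧ (∀ t, 1 ≤ t → t < κ + 1 → a t ∈ T K (p ^ s - 1)) ∧
        (δ : ℝ) ≤ A * Real.log (R + 2) ∧
        (p ^ s) ^ (κ + 1) * R + δ =
          (p ^ s) ^ (κ + 1) * u + ∑ t ∈ range (κ + 1), (p ^ s) ^ t * a t := by
  classical
  have hp : p.Prime := Fact.out
  obtain ⟨C, hC, h1⟩ := exists_bound b hb f t C0 ht
  set q := p ^ s with hq
  have hq0 : 0 < q := pow_pos hp.pos _
  have hb2 : (2 : ℝ) ≤ b := by exact_mod_cast hb
  obtain ⟨e, he⟩ := exists_window C (|t| + |C0|) B hC (by positivity) hB D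
  have hlog2 : 0 < Real.log 2 := Real.log_pos (by norm_num)
  have hqk : 0 < q ^ (κ + 1) := pow_pos hq0 _
  set Q : ℝ := ((q ^ (κ + 1) : ℕ) : ℝ) with hQ
  have hQ1 : 1 ≤ Q := by
    rw [hQ]; exact_mod_cast hqk
  have hlQ : 0 ≤ Real.log Q := Real.log_nonneg hQ1
  refine ⟨Q * ((e : ℝ) + 1) * ((Real.log Q / Real.log 2 + 1) / Real.log 2 + 1 / Real.log 2),
    by positivity, ?_⟩
  intro U hU hdl R
  set N := q ^ (κ + 1) * R with hN
  set g := Nat.log 2 (N + 2) + 1 with hg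
  set l := e * g with hl
  set N' := N + l with hN'
  set P := Pol b U N' with hP
  have hU0 : |(U 0 : ℝ)| ≤ |t| + |C0| := by
    have a1 := hU 0
    rw [pow_zero, one_mul] at a1
    have a2 : |(U 0 : ℝ)| ≤ |(U 0 : ℝ) - t| + |t| := by
      calc |(U 0 : ℝ)| = |((U 0 : ℝ) - t) + t| := by ring_nf
        _ ≤ _ := abs_add_le _ _
    have a3 := le_abs_self C0
    linarith
  have hV : (V b U N' : ℝ) ≤ |t| + |C0| + B * (N' : ℝ) := by
    unfold V
    rw [Finset.sum_range_succ']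
    push_cast
    have a1 : ∑ k ∈ range N', |(dlt b U (k + 1) : ℝ)| ≤ ∑ _k ∈ range N', B :=
      Finset.sum_le_sum fun k _ => hdl k
    rw [Finset.sum_const, Finset.card_range, nsmul_eq_mul] at a1
    have a2 : |(dlt b U 0 : ℝ)| ≤ |t| + |C0| := hU0
    linarith
  have hV0 : (0 : ℝ) ≤ (V b U N' : ℝ) := by exact_mod_cast V_nonneg b U _
  have hn1 : (n1 P : ℝ) ≤ (V b U N' : ℝ) := by exact_mod_cast n1_Pol_le b U N'
  have hn0 : (0 : ℝ) ≤ (n1 P : ℝ) := by exact_mod_cast n1_nonneg P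
  have hsum := h1 N' P (approx_Pol b hb U t C0 hU N')
  have hS : ∀ M ≤ N', |S b (f.comp P) M| < (b : ℤ) ^ l := by
    intro M hM
    have a1 : (|S b (f.comp P) M| : ℝ) ≤ ∑ R ∈ range (N' + 1), (|S b (f.comp P) R| : ℝ) :=
      Finset.single_le_sum (f := fun R => (|S b (f.comp P) R| : ℝ)) (fun _ _ => abs_nonneg _)
        (Finset.mem_range.2 (by omega))
    have a2 : C * (1 + (n1 P : ℝ)) ^ f.natDegree ≤ C * (1 + (|t| + |C0|) + B * (N' : ℝ)) ^ D := by
      rw [hf.deg]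
      apply mul_le_mul_of_nonneg_left _ hC.le
      exact pow_le_pow_left₀ (by linarith) (by linarith) _
    have a3 := he b hb N
    have a4 : (|S b (f.comp P) M| : ℝ) < (b : ℝ) ^ l :=
      lt_of_le_of_lt (a1.trans (hsum.trans a2)) a3
    have a5 : ((|S b (f.comp P) M| : ℤ) : ℝ) < (((b : ℤ) ^ l : ℤ) : ℝ) := by
      push_cast
      exact a4
    exact_mod_cast a5
  refine ⟨insert 0 P.support, ?_, ?_⟩
  · intro k hk
    rw [Finset.mem_insert] at hk
    rcases hk with hk | hk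
    · exact Or.inl hk
    · right
      rw [Polynomial.mem_support_iff, hP, Pol_coeff] at hk
      intro h0
      apply hk
      rw [h0]; simp
  · set K : Finset ℕ := insert 0 P.support with hK
    have h0K : 0 ∈ K := Finset.mem_insert_self _ _
    have hcov : Cov P K := by
      intro i hi
      exact Finset.mem_insert_of_mem (Polynomial.mem_support_iff.2 hi)
    obtain ⟨u, a, δ, g0, g1, g2, g3, g4⟩ := rep_all (R := R) (l := l) hpb hf hs h0K hcov (by
      intro R' hR' hne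
      exact near h0K hcov hf.deg.le hne (hS (R' + l) (Nat.add_le_add_right hR' l)))
    refine ⟨u, a, δ, g0, g1, g2, ?_, g4⟩
    have hR2 : (2 : ℝ) ≤ (R : ℝ) + 2 := by
      have : (0 : ℝ) ≤ R := by positivity
      linarith
    have hlR : Real.log 2 ≤ Real.log ((R : ℝ) + 2) := Real.log_le_log (by norm_num) hR2
    have b1 : (δ : ℝ) ≤ Q * (e * g) := by
      have : (δ : ℝ) ≤ ((q ^ (κ + 1) * l : ℕ) : ℝ) := by exact_mod_cast g3
      rw [Nat.cast_mul, ← hQ, hl] at this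
      push_cast at this ⊢
      exact this
    have b2 : ((Nat.log 2 (N + 2) : ℕ) : ℝ) * Real.log 2 ≤ Real.log ((N : ℝ) + 2) := by
      have c1 : 2 ^ Nat.log 2 (N + 2) ≤ N + 2 := Nat.pow_log_le_self 2 (by omega)
      have c2 : ((2 : ℝ) ^ Nat.log 2 (N + 2)) ≤ (N : ℝ) + 2 := by exact_mod_cast c1
      have c3 := Real.log_le_log (by positivity) c2
      rwa [Real.log_pow] at c3
    have b3 : Real.log ((N : ℝ) + 2) ≤ Real.log Q + Real.log ((R : ℝ) + 2) := by
      rw [← Real.log_mul (by positivity) (by positivity)]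
      apply Real.log_le_log (by positivity)
      have : (N : ℝ) = Q * R := by rw [hN, hQ]; push_cast; ring
      rw [this]
      nlinarith
    have b4 : (g : ℝ) ≤ (Real.log Q + Real.log ((R : ℝ) + 2)) / Real.log 2 + 1 := by
      rw [hg]
      push_cast
      have : ((Nat.log 2 (N + 2) : ℕ) : ℝ) ≤ (Real.log Q + Real.log ((R : ℝ) + 2)) / Real.log 2 := by
        rw [le_div_iff₀ hlog2]
        linarith
      linarith
    have b5 : (Real.log Q + Real.log ((R : ℝ) + 2)) / Real.log 2 + 1 ≤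
        ((Real.log Q / Real.log 2 + 1) / Real.log 2 + 1 / Real.log 2) *
          Real.log ((R : ℝ) + 2) := by
      have d1 : 1 ≤ Real.log ((R : ℝ) + 2) / Real.log 2 := by
        rw [le_div_iff₀ hlog2]; linarith
      have d2 : Real.log Q ≤ Real.log Q * (Real.log ((R : ℝ) + 2) / Real.log 2) :=
        le_mul_of_one_le_right hlQ d1
      have d3 : (Real.log Q + Real.log ((R : ℝ) + 2)) / Real.log 2 ≤
          (Real.log Q * (Real.log ((R : ℝ) + 2) / Real.log 2) + Real.log ((R : ℝ) + 2)) /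
            Real.log 2 := by
        apply div_le_div_of_nonneg_right _ hlog2.le
        linarith
      have d4 : (Real.log Q * (Real.log ((R : ℝ) + 2) / Real.log 2) + Real.log ((R : ℝ) + 2)) /
          Real.log 2 + Real.log ((R : ℝ) + 2) / Real.log 2 =
          ((Real.log Q / Real.log 2 + 1) / Real.log 2 + 1 / Real.log 2) *
            Real.log ((R : ℝ) + 2) := by
        field_simp
      linarith
    have hlpos : 0 ≤ ((Real.log Q / Real.log 2 + 1) / Real.log 2 + 1 / Real.log 2) *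
          Real.log ((R : ℝ) + 2) := by
      have : 0 ≤ Real.log ((R : ℝ) + 2) := hlog2.le.trans hlR
      positivity
    calc (δ : ℝ) ≤ Q * (e * g) := b1
      _ ≤ Q * (((e : ℝ) + 1) * (((Real.log Q / Real.log 2 + 1) / Real.log 2 + 1 / Real.log 2) *
            Real.log ((R : ℝ) + 2))) := by
          apply mul_le_mul_of_nonneg_left _ (by linarith)
          apply mul_le_mul (by linarith) (b4.trans b5) (by positivity) (by positivity)
      _ = _ := by ring

lemma mem_T_one {K : Finset ℕ} {a : ℕ} (h : a ∈ T K 1) : a ∈ K := by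
  obtain ⟨r, hr, i, hi, rfl⟩ := Finset.mem_image₂.1 h
  simp only [T, Finset.mem_singleton] at hr
  subst hr
  simpa using hi

/-- For expansions, `D = 2` and `p = 2`. -/
theorem basis_two {b : ℕ} (hb : 2 ≤ b) (hb2 : Odd b) {f : ℤ[X]} {κ : ℕ} (hf : Eis f 2 κ 1 2)
    (x : ℝ) (m : ℕ) (q : ℕ → ℤ) (e W v z : ℤ) (hv : W * e = ((b : ℤ) - 1) * v)
    (ht : (f.map (Int.castRingHom ℝ)).eval
      (((W * ∑ j ∈ range (m + 1), q j * (b : ℤ) ^ j : ℤ) : ℝ) * x + z) = 0) (G : ℤ) :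
    ∃ A : ℝ, 0 < A ∧ ∀ g : ℕ → ℤ, Expansion b G x g → ∀ R : ℕ,
      ∃ (i : ℕ → ℕ) (δ : ℕ), (∀ t, i t = 0 ∨ (1 ≤ i t ∧
        ∑ j ∈ range (m + 1), q j * g (i t + j) ≠ e)) ∧ (δ : ℝ) ≤ A * Real.log (R + 2) ∧
        2 ^ (κ + 1) * R + δ = i 0 + ∑ t ∈ range (κ + 2), 2 ^ t * i (t + 1) := by
  have hp' : Fact (Nat.Prime 2) := ⟨Nat.prime_two⟩
  have hpb : ¬ 2 ∣ b := by
    rw [← even_iff_two_dvd, Nat.not_even_iff_odd]; exact hb2
  by_cases hG0 : 0 ≤ G
  swap
  · refine ⟨1, one_pos, ?_⟩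
    intro g hg
    exact absurd ((abs_nonneg _).trans (hg.1 1 le_rfl)) hG0
  have hG0' : (0 : ℝ) ≤ G := by exact_mod_cast hG0
  obtain ⟨A, hA, hbas⟩ := basis_of_eis (p := 2) (s := 1) hb hpb hf (by norm_num) _ ht
    (|(W : ℝ)| * ∑ j ∈ range (m + 1), |(q j : ℝ)| * G + |(v : ℝ)|)
    (|(W : ℝ)| * (∑ j ∈ range (m + 1), |(q j : ℝ)| * G + |(e : ℝ)|)) (by positivity)
  refine ⟨A, hA, ?_⟩
  intro g hg R
  obtain ⟨U0, hU01, hU02⟩ := exists_U b hb x m q e W v hv G g hg
  obtain ⟨U, hU⟩ : ∃ U : ℕ → ℤ, U = fun K => U0 K + (b : ℤ) ^ K * z := ⟨_, rfl⟩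
  have hU1 : ∀ K, |(U K : ℝ) - (b : ℝ) ^ K *
      (((W * ∑ j ∈ range (m + 1), q j * (b : ℤ) ^ j : ℤ) : ℝ) * x + z)| ≤
        |(W : ℝ)| * ∑ j ∈ range (m + 1), |(q j : ℝ)| * G + |(v : ℝ)| := by
    intro K
    have e0 : (U K : ℝ) - (b : ℝ) ^ K *
        (((W * ∑ j ∈ range (m + 1), q j * (b : ℤ) ^ j : ℤ) : ℝ) * x + z) = (U0 K : ℝ) -
        (b : ℝ) ^ K * (((W * ∑ j ∈ range (m + 1), q j * (b : ℤ) ^ j : ℤ) : ℝ) * x) := by
      rw [hU]; push_cast; ring
    rw [e0]
    exact hU01 K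
  have hU2 : ∀ k, dlt b U (k + 1) = W * (∑ j ∈ range (m + 1), q j * g (k + 1 + j) - e) := by
    intro k
    rw [← hU02 k, hU]
    simp only [dlt]
    ring
  obtain ⟨K, hK, u, a, δ, h1, h2, h3, h4, h5⟩ := hbas U hU1 (by
    intro k
    rw [hU2]
    push_cast
    rw [abs_mul]
    apply mul_le_mul_of_nonneg_left _ (abs_nonneg _)
    refine (abs_sub _ _).trans ?_
    apply add_le_add _ le_rfl
    refine (Finset.abs_sum_le_sum_abs _ _).trans ?_
    apply Finset.sum_le_sum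
    intro j _
    rw [abs_mul]
    apply mul_le_mul_of_nonneg_left _ (abs_nonneg _)
    have := hg.1 (k + 1 + j) (by omega)
    exact_mod_cast this) R
  rw [pow_one] at h2 h3 h5
  have hK' : ∀ k ∈ K, k = 0 ∨ (1 ≤ k ∧ ∑ j ∈ range (m + 1), q j * g (k + j) ≠ e) := by
    intro k hk
    rcases hK k hk with h6 | h6
    · exact Or.inl h6
    · rcases Nat.eq_zero_or_pos k with h7 | h7
      · exact Or.inl h7
      · obtain ⟨k', rfl⟩ : ∃ k', k = k' + 1 := ⟨k - 1, by omega⟩
        right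
        refine ⟨h7, ?_⟩
        rw [hU2] at h6
        intro h8
        apply h6
        rw [h8]; simp
  obtain ⟨c, hc, c', hc', hcc⟩ := Finset.mem_image₂.1 h2
  have hc1 : c ∈ K := mem_T_one hc
  have hu1 : u ∈ K := mem_T_one h1
  refine ⟨fun t => if t = 0 then c else if t = 1 then c' else if t ≤ κ + 1 then a (t - 1) else u,
    δ, ?_, h4, ?_⟩
  · intro t
    simp only
    split_ifs with e1 e2 e3
    · exact hK' c hc1
    · exact hK' c' hc'
    · exact hK' _ (mem_T_one (h3 (t - 1) (by omega) (by omega)))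
    · exact hK' u hu1
  · rw [h5, Finset.sum_range_succ _ (κ + 1), Finset.sum_range_succ' _ κ, Finset.sum_range_succ' _ κ]
    have e6 : ∑ t ∈ range κ, 2 ^ (t + 1) * (if t + 1 + 1 = 0 then c else if t + 1 + 1 = 1 then c'
        else if t + 1 + 1 ≤ κ + 1 then a (t + 1 + 1 - 1) else u) =
        ∑ t ∈ range κ, 2 ^ (t + 1) * a (t + 1) := by
      apply Finset.sum_congr rfl
      intro t ht'
      rw [Finset.mem_range] at ht'
      rw [if_neg (by omega), if_neg (by omega), if_pos (by omega), Nat.add_sub_cancel]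
    simp only [zero_add, pow_zero, one_mul, if_true, one_ne_zero, if_false] at e6 ⊢
    rw [e6, ← hcc, if_neg (show ¬ (κ + 1 + 1 = 0) by omega),
      if_neg (show ¬ (κ + 1 + 1 = 1) by omega), if_neg (show ¬ (κ + 1 + 1 ≤ κ + 1) by omega)]
    ring

/-- `√d`, `d ≡ 2, 3 (mod 4)`: the failures are an additive basis up to logarithmic errors. -/
theorem sqrt_basis {d : ℕ} (hd : d % 4 = 2 ∨ d % 4 = 3) {b : ℕ} (hb : 2 ≤ b) (hb2 : Odd b) (m : ℕ)
    (q : ℕ → ℤ) (e W v : ℤ) (hW : W ≠ 0) (hv : W * e = ((b : ℤ) - 1) * v)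
    (hq : ∑ j ∈ range (m + 1), q j * (b : ℤ) ^ j ≠ 0) (G : ℤ) :
    ∃ A : ℝ, 0 < A ∧ ∀ g : ℕ → ℤ, Expansion b G (Real.sqrt d) g → ∀ R : ℕ,
      ∃ (i : ℕ → ℕ) (δ : ℕ), (∀ t, i t = 0 ∨ (1 ≤ i t ∧
        ∑ j ∈ range (m + 1), q j * g (i t + j) ≠ e)) ∧ (δ : ℝ) ≤ A * Real.log (R + 2) ∧
        2 ^ (padicValInt 2 (W * ∑ j ∈ range (m + 1), q j * (b : ℤ) ^ j) + 1) * R + δ = i 0 +
        ∑ t ∈ range (padicValInt 2 (W * ∑ j ∈ range (m + 1), q j * (b : ℤ) ^ j) + 2),
          2 ^ t * i (t + 1) := by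
  have hsq : Real.sqrt d ^ 2 = d := Real.sq_sqrt (by positivity)
  set Λ := W * ∑ j ∈ range (m + 1), q j * (b : ℤ) ^ j with hΛ
  have hΛ0 : Λ ≠ 0 := mul_ne_zero hW hq
  rcases hd with hd | hd
  · have hE := (eis_root (p := 2) (D := 2) (d := d) Nat.prime_two le_rfl (by omega)
      (by rw [padic_two hd]; omega)).scale Nat.prime_two Λ hΛ0
    rw [padic_two hd, show 1 / 2 + padicValInt 2 Λ = padicValInt 2 Λ by omega,
      show 1 % 2 = 1 from rfl] at hE
    refine basis_two hb hb2 hE (Real.sqrt d) m q e W v 0 hv ?_ G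
    rw [eval_map]
    have h1 : eval₂ (Int.castRingHom ℝ) (Real.sqrt d) (X ^ 2 - C (d : ℤ)) = 0 := by
      simp [hsq]
    have h2 := scaleRoots_eval₂_eq_zero (Int.castRingHom ℝ) (s := Λ) h1
    rw [eq_intCast] at h2
    rw [Int.cast_zero, add_zero]
    exact h2
  · have hE := (eis_three hd).scale Nat.prime_two Λ hΛ0
    rw [Nat.zero_add] at hE
    refine basis_two hb hb2 hE (Real.sqrt d) m q e W v Λ hv ?_ G
    rw [eval_map]
    have h1 : eval₂ (Int.castRingHom ℝ) (Real.sqrt d + 1)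
        (X ^ 2 + (C (-2) * X + C (1 - (d : ℤ)))) = 0 := by
      simp only [eval₂_add, eval₂_pow, eval₂_mul, eval₂_X, eval₂_C]
      simp only [eq_intCast]
      push_cast
      linear_combination hsq
    have h2 := scaleRoots_eval₂_eq_zero (Int.castRingHom ℝ) (s := Λ) h1
    rw [eq_intCast] at h2
    have e1 : (Λ : ℝ) * Real.sqrt d + Λ = Λ * (Real.sqrt d + 1) := by ring
    show eval₂ (Int.castRingHom ℝ) ((Λ : ℝ) * Real.sqrt d + Λ) _ = 0
    rw [e1]
    exact h2

end Pool.Agent.U363.EX
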