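import Pool.Agent.H323R2.Chg

/-!
Sparse integer polynomials `P` such that most of the integers `S b (f(P)) R` vanish, for a monic
polynomial `f` which is Eisenstein at a prime `p` (up to a scaling by `p ^ κ`): the finite
inequalities behind the explicit exponents.
-/

set_option autoImplicit false

namespace Pool.Agent.U363.EX

open Polynomial Finset Pool.Agent.H323R2

lemma S_add (b : ℕ) (A B : ℤ[X]) (R : ℕ) : S b (A + B) R = S b A R + S b B R := by
  unfold S
  rw [← Finset.sum_add_distrib]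
  apply Finset.sum_congr rfl
  intro n _
  rw [Polynomial.coeff_add]; ring

lemma S_C_mul (b : ℕ) (B : ℤ[X]) (c : ℤ) (R : ℕ) : S b (C c * B) R = c * S b B R := by
  unfold S
  rw [Finset.mul_sum]
  apply Finset.sum_congr rfl
  intro n _
  rw [Polynomial.coeff_C_mul]
  ring

lemma S_zero' (b : ℕ) (R : ℕ) : S b (0 : ℤ[X]) R = 0 := by
  unfold S; simp

lemma S_sum {ι : Type} (b : ℕ) (s : Finset ι) (A : ι → ℤ[X]) (R : ℕ) :
    S b (∑ i ∈ s, A i) R = ∑ i ∈ s, S b (A i) R := by
  classical
  induction s using Finset.induction_on with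
  | empty => simp [S_zero']
  | insert a s ha ih => rw [Finset.sum_insert ha, Finset.sum_insert ha, S_add, ih]

lemma S_one (b : ℕ) (R : ℕ) : S b (1 : ℤ[X]) R = (b : ℤ) ^ R := by
  induction R with
  | zero => simp [S_zero]
  | succ R ih => rw [S_succ, ih, Polynomial.coeff_one]; simp [pow_succ]; ring

lemma S_mul (b : ℕ) (A B : ℤ[X]) (R : ℕ) :
    S b (A * B) R = ∑ i ∈ range (R + 1), A.coeff i * S b B (R - i) := by
  induction R with
  | zero => simp [S_zero, Polynomial.mul_coeff_zero]
  | succ R ih =>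
    rw [S_succ, ih, Polynomial.coeff_mul,
      Finset.Nat.sum_antidiagonal_eq_sum_range_succ (fun i j => A.coeff i * B.coeff j),
      Finset.sum_range_succ _ (R + 1), Finset.sum_range_succ _ (R + 1), Nat.sub_self, S_zero,
      Finset.mul_sum, ← add_assoc, ← Finset.sum_add_distrib]
    congr 1
    apply Finset.sum_congr rfl
    intro i hi
    have hi' : i ≤ R := Nat.lt_succ_iff.1 (Finset.mem_range.1 hi)
    rw [show R + 1 - i = (R - i) + 1 by omega, S_succ]
    ring

/-- iterated sumsets of `K` -/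
def T (K : Finset ℕ) : ℕ → Finset ℕ
  | 0 => {0}
  | k + 1 => Finset.image₂ (· + ·) (T K k) K

lemma card_T (K : Finset ℕ) (k : ℕ) : (T K k).card ≤ K.card ^ k := by
  induction k with
  | zero => simp [T]
  | succ k ih =>
    refine (Finset.card_image₂_le _ _ _).trans ?_
    rw [pow_succ]
    exact Nat.mul_le_mul_right _ ih

lemma T_mono (K : Finset ℕ) (h0 : 0 ∈ K) {a c : ℕ} (h : a ≤ c) : T K a ⊆ T K c := by
  induction c, h using Nat.le_induction with
  | base => exact Finset.Subset.refl _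
  | succ c _ ih =>
    intro x hx
    exact Finset.mem_image₂.2 ⟨x, ih hx, 0, h0, by simp⟩

/-- `A` is supported in `s` -/
def Cov (A : ℤ[X]) (s : Finset ℕ) : Prop := ∀ i, A.coeff i ≠ 0 → i ∈ s

lemma cov_one (K : Finset ℕ) : Cov 1 (T K 0) := by
  intro i hi
  rw [Polynomial.coeff_one] at hi
  simp only [T, Finset.mem_singleton]
  by_contra h
  exact hi (if_neg h)

lemma cov_mul {K : Finset ℕ} {A B : ℤ[X]} {k : ℕ} (hA : Cov A (T K k)) (hB : Cov B K) :
    Cov (A * B) (T K (k + 1)) := by
  intro n hn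
  rw [Polynomial.coeff_mul] at hn
  obtain ⟨x, hx, h⟩ := Finset.exists_ne_zero_of_sum_ne_zero hn
  rw [Finset.HasAntidiagonal.mem_antidiagonal] at hx
  exact Finset.mem_image₂.2 ⟨x.1, hA _ (left_ne_zero_of_mul h), x.2, hB _ (right_ne_zero_of_mul h), hx⟩

lemma cov_mul_pow {K : Finset ℕ} {A B : ℤ[X]} {k : ℕ} (hA : Cov A (T K k)) (hB : Cov B K) (c : ℕ) :
    Cov (A * B ^ c) (T K (k + c)) := by
  induction c with
  | zero => simpa using hA
  | succ c ih =>
    rw [pow_succ, ← mul_assoc]
    exact cov_mul ih hB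

lemma cov_pow {K : Finset ℕ} {B : ℤ[X]} (hB : Cov B K) (c : ℕ) : Cov (B ^ c) (T K c) := by
  have := cov_mul_pow (cov_one K) hB c
  simpa using this

/-- replacing one factor -/
lemma replace {b : ℕ} {A P P' : ℤ[X]} {s : Finset ℕ} {R : ℕ} (hA : Cov A s)
    (h : ∀ i ∈ s, i ≤ R → S b P (R - i) = S b P' (R - i)) :
    S b (A * P) R = S b (A * P') R := by
  rw [S_mul, S_mul]
  apply Finset.sum_congr rfl
  intro i hi
  have hi' : i ≤ R := Nat.lt_succ_iff.1 (Finset.mem_range.1 hi)
  by_cases h0 : A.coeff i = 0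
  · rw [h0, zero_mul, zero_mul]
  · rw [h i (hA i h0) hi']

lemma replace_pow {b : ℕ} {P P' : ℤ[X]} {K : Finset ℕ} (h0 : 0 ∈ K) (hP : Cov P K) (hP' : Cov P' K)
    {R d : ℕ} (h : ∀ i ∈ T K d, i ≤ R → S b P (R - i) = S b P' (R - i)) (m : ℕ) (hm : m ≤ d + 1) :
    S b (P ^ m) R = S b (P' ^ m) R := by
  have key : ∀ k ≤ m, S b (P ^ m) R = S b (P ^ (m - k) * P' ^ k) R := by
    intro k
    induction k with
    | zero => intro _; simp
    | succ k ih =>
      intro hk
      rw [ih (by omega)]
      have e1 : P ^ (m - k) * P' ^ k = (P ^ (m - (k + 1)) * P' ^ k) * P := by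
        rw [show m - k = (m - (k + 1)) + 1 by omega, pow_succ]; ring
      have e2 : P ^ (m - (k + 1)) * P' ^ (k + 1) = (P ^ (m - (k + 1)) * P' ^ k) * P' := by
        rw [pow_succ]; ring
      rw [e1, e2]
      refine replace ?_ h
      have := cov_mul_pow (cov_pow hP (m - (k + 1))) hP' k
      intro i hi
      exact T_mono K h0 (by omega) (this i hi)
  have := key m le_rfl
  simpa using this

/-- composition -/
lemma S_comp (b : ℕ) (f P : ℤ[X]) (R : ℕ) :
    S b (f.comp P) R = ∑ m ∈ range (f.natDegree + 1), f.coeff m * S b (P ^ m) R := by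
  rw [Polynomial.comp, Polynomial.eval₂_eq_sum_range, S_sum]
  apply Finset.sum_congr rfl
  intro m _
  rw [S_C_mul]

/-- Splitting off the part of the partial sums which is divisible by `M`. -/
lemma split (b : ℕ) (M : ℤ) (hM : M ≠ 0) (hMb : IsCoprime M (b : ℤ)) (P : ℤ[X]) (N : ℕ)
    (K : Finset ℕ) (h0 : 0 ∈ K) (hP : Cov P K) :
    ∃ W : ℤ[X], Cov W K ∧ ∀ n ≤ N, M ∣ S b P n → S b P n = M * S b W n := by
  classical
  set U : ℕ → ℤ := fun n => if M ∣ S b P n then S b P n else 0 with hU
  have hdvd : ∀ n, M ∣ U n := by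
    intro n
    simp only [hU]
    split_ifs with h
    · exact h
    · exact dvd_zero _
  have hd : ∀ n, M ∣ dlt b U n := by
    intro n
    cases n with
    | zero => exact hdvd 0
    | succ n => exact dvd_sub (hdvd _) (Dvd.dvd.mul_left (hdvd _) _)
  have hC : C M ∣ Pol b U N := by
    rw [Polynomial.C_dvd_iff_dvd_coeff]
    intro i
    rw [Pol_coeff]
    split_ifs
    · exact hd i
    · exact dvd_zero _
  obtain ⟨W, hW⟩ := hC
  refine ⟨W, ?_, ?_⟩
  · intro i hi
    have h1 : (Pol b U N).coeff i ≠ 0 := by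
      rw [hW, Polynomial.coeff_C_mul]
      exact mul_ne_zero hM hi
    rw [Pol_coeff] at h1
    cases i with
    | zero => exact h0
    | succ i =>
      apply hP
      intro h2
      apply h1
      have h3 : S b P (i + 1) = b * S b P i := by rw [S_succ, h2, add_zero]
      have h4 : M ∣ S b P (i + 1) ↔ M ∣ S b P i := by
        rw [h3]
        exact ⟨fun h => hMb.dvd_of_dvd_mul_left h, fun h => Dvd.dvd.mul_left h _⟩
      have h5 : dlt b U (i + 1) = 0 := by
        simp only [dlt, hU]
        by_cases h : M ∣ S b P i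
        · rw [if_pos (h4.2 h), if_pos h, h3]; ring
        · rw [if_neg (fun h' => h (h4.1 h')), if_neg h]; ring
      rw [h5]; simp
  · intro n hn h
    have h1 := S_Pol b U N n hn
    rw [hW, S_C_mul] at h1
    rw [h1]
    simp only [hU]
    rw [if_pos h]

end Pool.Agent.U363.EX
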