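import Pool.Agent.U363.EX.Rate

/-!
From the variation of approximating sequences to linear relations between the digits of
expansions with bounded integer digits.
-/

set_option autoImplicit false

namespace Pool.Agent.U363.EX

open Polynomial Finset Pool.Agent.H323R2

/-- `g_1, g_2, …` are integers of absolute value at most `G` and
`x = a + ∑_{k ≥ 1} g_k b ^ (-k)` for some integer `a`. -/
def Expansion (b : ℕ) (G : ℤ) (x : ℝ) (g : ℕ → ℤ) : Prop :=
  (∀ k, 1 ≤ k → |g k| ≤ G) ∧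
    ∃ a : ℤ, HasSum (fun k : ℕ => (g (k + 1) : ℝ) / (b : ℝ) ^ (k + 1)) (x - a)

/-- the number of `1 ≤ k ≤ N` for which `q_0 g_k + q_1 g_{k+1} + … + q_m g_{k+m} ≠ e` -/
noncomputable def fails (g : ℕ → ℤ) (m : ℕ) (q : ℕ → ℤ) (e : ℤ) (N : ℕ) : ℕ :=
  ((Finset.Icc 1 N).filter (fun k => ∑ j ∈ range (m + 1), q j * g (k + j) ≠ e)).card

/-- the integers `a b^K + g_1 b^(K-1) + … + g_K` -/
def app (b : ℕ) (a : ℤ) (g : ℕ → ℤ) : ℕ → ℤ
  | 0 => a
  | K + 1 => b * app b a g K + g (K + 1)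

lemma app_eq (b : ℕ) (hb : 2 ≤ b) (a : ℤ) (g : ℕ → ℤ) (K : ℕ) :
    (app b a g K : ℝ) = (b : ℝ) ^ K * (a + ∑ k ∈ range K, (g (k + 1) : ℝ) / (b : ℝ) ^ (k + 1)) := by
  have hb0 : (b : ℝ) ≠ 0 := by positivity
  induction K with
  | zero => simp [app]
  | succ K ih =>
    rw [app, Finset.sum_range_succ]
    push_cast
    rw [ih]
    field_simp
    ring

lemma app_approx (b : ℕ) (hb : 2 ≤ b) (G : ℤ) (x : ℝ) (g : ℕ → ℤ) (a : ℤ)
    (hG : ∀ k, 1 ≤ k → |g k| ≤ G)
    (hs : HasSum (fun k : ℕ => (g (k + 1) : ℝ) / (b : ℝ) ^ (k + 1)) (x - a)) (K : ℕ) :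
    |(app b a g K : ℝ) - (b : ℝ) ^ K * x| ≤ G := by
  have hb2 : (2 : ℝ) ≤ b := by exact_mod_cast hb
  have hb0 : (0 : ℝ) < b := by positivity
  have hG0 : (0 : ℝ) ≤ (G : ℝ) := by
    have := (abs_nonneg _).trans (hG 1 le_rfl)
    exact_mod_cast this
  have h1 := (hasSum_nat_add_iff' K).2 hs
  have h2 := h1.mul_left ((b : ℝ) ^ K)
  have h3 : HasSum (fun i : ℕ => (G : ℝ) * ((1 / 2 : ℝ) ^ (i + 1))) (G : ℝ) := by
    have h4 : HasSum (fun i : ℕ => (1 / 2 : ℝ) ^ i) 2 := hasSum_geometric_two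
    have h5 := h4.mul_left ((G : ℝ) * (1 / 2))
    have e : (G : ℝ) * (1 / 2) * 2 = G := by ring
    rw [e] at h5
    refine h5.congr_fun ?_ |> fun h => h
    intro i
    rw [pow_succ]; ring
  have h6 := HasSum.norm_le_of_bounded h2 h3 (by
    intro i
    rw [Real.norm_eq_abs, abs_mul, abs_div, abs_of_pos (pow_pos hb0 K), abs_of_pos (pow_pos hb0 _)]
    have a1 : |(g (i + K + 1) : ℝ)| ≤ (G : ℝ) := by
      have := hG (i + K + 1) (by omega)
      exact_mod_cast this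
    have a2 : (b : ℝ) ^ K * (|(g (i + K + 1) : ℝ)| / (b : ℝ) ^ (i + K + 1)) =
        |(g (i + K + 1) : ℝ)| * (1 / (b : ℝ)) ^ (i + 1) := by
      rw [show i + K + 1 = K + (i + 1) by ring, pow_add, one_div, inv_pow]
      field_simp
    rw [a2]
    apply mul_le_mul a1 _ (by positivity) hG0
    apply pow_le_pow_left₀ (by positivity)
    exact one_div_le_one_div_of_le (by norm_num) hb2)
  rw [Real.norm_eq_abs] at h6
  have e2 : (app b a g K : ℝ) - (b : ℝ) ^ K * x =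
      -((b : ℝ) ^ K * (x - a - ∑ i ∈ range K, (g (i + 1) : ℝ) / (b : ℝ) ^ (i + 1))) := by
    rw [app_eq b hb]; ring
  rw [e2, abs_neg]
  exact h6

/-- The approximating sequence of a linear relation. -/
lemma exists_U (b : ℕ) (hb : 2 ≤ b) (x : ℝ) (m : ℕ) (q : ℕ → ℤ) (e W v : ℤ)
    (hv : W * e = ((b : ℤ) - 1) * v) (G : ℤ) (g : ℕ → ℤ) (hg : Expansion b G x g) :
    ∃ U : ℕ → ℤ, (∀ K, |(U K : ℝ) - (b : ℝ) ^ K *
      (((W * ∑ j ∈ range (m + 1), q j * (b : ℤ) ^ j : ℤ) : ℝ) * x)| ≤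
        |(W : ℝ)| * ∑ j ∈ range (m + 1), |(q j : ℝ)| * G + |(v : ℝ)|) ∧
      ∀ k, dlt b U (k + 1) = W * (∑ j ∈ range (m + 1), q j * g (k + 1 + j) - e) := by
  obtain ⟨hG, a, hs⟩ := hg
  set t : ℝ := ((W * ∑ j ∈ range (m + 1), q j * (b : ℤ) ^ j : ℤ) : ℝ) * x with ht
  set f : ℕ → ℤ := app b a g with hf
  have hfa : ∀ K, |(f K : ℝ) - (b : ℝ) ^ K * x| ≤ G := app_approx b hb G x g a hG hs
  refine ⟨fun K => W * ∑ j ∈ range (m + 1), q j * f (K + j) + v, ?_, ?_⟩
  · intro K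
    have e1 : ((W * ∑ j ∈ range (m + 1), q j * f (K + j) + v : ℤ) : ℝ) - (b : ℝ) ^ K * t =
        (W : ℝ) * ∑ j ∈ range (m + 1),
        (q j : ℝ) * ((f (K + j) : ℝ) - (b : ℝ) ^ (K + j) * x) + v := by
      simp only [ht]
      push_cast
      have e2 : ∑ j ∈ range (m + 1), (q j : ℝ) * ((f (K + j) : ℝ) - (b : ℝ) ^ (K + j) * x) =
          ∑ j ∈ range (m + 1), (q j : ℝ) * (f (K + j) : ℝ) -
            (b : ℝ) ^ K * ((∑ j ∈ range (m + 1), (q j : ℝ) * (b : ℝ) ^ j) * x) := by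
        rw [Finset.sum_mul, Finset.mul_sum, ← Finset.sum_sub_distrib]
        apply Finset.sum_congr rfl
        intro j _
        rw [pow_add]; ring
      rw [e2]; ring
    rw [e1]
    refine (abs_add_le _ _).trans ?_
    apply add_le_add _ le_rfl
    rw [abs_mul]
    apply mul_le_mul_of_nonneg_left _ (abs_nonneg _)
    refine (Finset.abs_sum_le_sum_abs _ _).trans ?_
    apply Finset.sum_le_sum
    intro j _
    rw [abs_mul]
    exact mul_le_mul_of_nonneg_left (hfa _) (abs_nonneg _)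
  · intro k
    have e5 : ∀ j, q j * g (k + 1 + j) = q j * f (k + 1 + j) - b * (q j * f (k + j)) := by
      intro j
      have : f (k + j + 1) = b * f (k + j) + g (k + j + 1) := rfl
      rw [show k + 1 + j = k + j + 1 by ring, this]
      ring
    simp_rw [e5]
    rw [Finset.sum_sub_distrib, ← Finset.mul_sum]
    simp only [dlt]
    linear_combination hv

/-- From the rate of `W (∑ q_j b^j) x` to the relation with coefficients `q` and constant `e`,
if `(b - 1) ∣ W e`. -/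
theorem fails_bound (b : ℕ) (hb : 2 ≤ b) (x : ℝ) (m : ℕ) (q : ℕ → ℤ) (e W v : ℤ) (hW : W ≠ 0)
    (hv : W * e = ((b : ℤ) - 1) * v) (τ : ℕ)
    (h : Rate b (((W * ∑ j ∈ range (m + 1), q j * (b : ℤ) ^ j : ℤ) : ℝ) * x) τ) (G : ℤ) :
    ∃ C : ℝ, 0 < C ∧ ∀ g : ℕ → ℤ, Expansion b G x g →
      ∀ N : ℕ, (N : ℝ) ≤ C * (1 + (fails g m q e N : ℝ)) ^ τ := by
  have hb0 : (0 : ℤ) < b := by exact_mod_cast (by omega : 0 < b)
  by_cases hG0 : 0 ≤ G
  swap
  · refine ⟨1, one_pos, ?_⟩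
    intro g hg
    exact absurd ((abs_nonneg _).trans (hg.1 1 le_rfl)) hG0
  set t : ℝ := ((W * ∑ j ∈ range (m + 1), q j * (b : ℤ) ^ j : ℤ) : ℝ) * x with ht
  set C0 : ℝ := |(W : ℝ)| * ∑ j ∈ range (m + 1), |(q j : ℝ)| * G + |(v : ℝ)| with hC0
  have hC00 : 0 ≤ C0 := by
    have : (0 : ℝ) ≤ G := by exact_mod_cast hG0
    positivity
  obtain ⟨C1, hC1, h1⟩ := h C0
  set B : ℝ := |(W : ℝ)| * (∑ j ∈ range (m + 1), |(q j : ℝ)| * G + |(e : ℝ)|) with hB
  have hB0 : 0 ≤ B := by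
    have : (0 : ℝ) ≤ G := by exact_mod_cast hG0
    positivity
  set u : ℝ := |t| + C0 with hu
  have hu0 : 0 ≤ u := by positivity
  refine ⟨C1 * (1 + u + B) ^ τ, by positivity, ?_⟩
  intro g hg N
  obtain ⟨hG, a, hs⟩ := hg
  set f : ℕ → ℤ := app b a g with hf
  have hfa : ∀ K, |(f K : ℝ) - (b : ℝ) ^ K * x| ≤ G := app_approx b hb G x g a hG hs
  set U : ℕ → ℤ := fun K => W * ∑ j ∈ range (m + 1), q j * f (K + j) + v with hU
  have happ : ∀ K, |(U K : ℝ) - (b : ℝ) ^ K * t| ≤ C0 := by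
    intro K
    have e1 : (U K : ℝ) - (b : ℝ) ^ K * t = (W : ℝ) * ∑ j ∈ range (m + 1),
        (q j : ℝ) * ((f (K + j) : ℝ) - (b : ℝ) ^ (K + j) * x) + v := by
      simp only [hU, ht]
      push_cast
      have e2 : ∑ j ∈ range (m + 1), (q j : ℝ) * ((f (K + j) : ℝ) - (b : ℝ) ^ (K + j) * x) =
          ∑ j ∈ range (m + 1), (q j : ℝ) * (f (K + j) : ℝ) -
            (b : ℝ) ^ K * ((∑ j ∈ range (m + 1), (q j : ℝ) * (b : ℝ) ^ j) * x) := by
        rw [Finset.sum_mul, Finset.mul_sum, ← Finset.sum_sub_distrib]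
        apply Finset.sum_congr rfl
        intro j _
        rw [pow_add]; ring
      rw [e2]; ring
    rw [e1]
    refine (abs_add_le _ _).trans ?_
    apply add_le_add _ le_rfl
    rw [abs_mul]
    apply mul_le_mul_of_nonneg_left _ (abs_nonneg _)
    refine (Finset.abs_sum_le_sum_abs _ _).trans ?_
    apply Finset.sum_le_sum
    intro j _
    rw [abs_mul]
    exact mul_le_mul_of_nonneg_left (hfa _) (abs_nonneg _)
  have h2 := h1 U happ N
  have hV : (V b U N : ℝ) ≤ |(U 0 : ℝ)| + B * (fails g m q e N : ℝ) := by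
    have hcard : (fails g m q e N : ℝ) = ∑ k ∈ range N,
        if ∑ j ∈ range (m + 1), q j * g (k + 1 + j) ≠ e then (1 : ℝ) else 0 := by
      unfold fails
      rw [Finset.card_filter]
      push_cast
      have hI : Finset.Icc 1 N = Finset.Ico 1 (N + 1) := by
        ext k; simp only [Finset.mem_Icc, Finset.mem_Ico]; omega
      rw [hI, Finset.sum_Ico_eq_sum_range, Nat.add_sub_cancel]
      apply Finset.sum_congr rfl
      intro k _
      rw [Nat.add_comm 1 k]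
    unfold V
    rw [Finset.sum_range_succ']
    push_cast
    rw [add_comm, hcard, Finset.mul_sum]
    apply add_le_add (le_of_eq rfl)
    apply Finset.sum_le_sum
    intro k _
    have e4 : dlt b U (k + 1) = W * (∑ j ∈ range (m + 1), q j * g (k + 1 + j) - e) := by
      have e5 : ∀ j, q j * g (k + 1 + j) = q j * f (k + 1 + j) - b * (q j * f (k + j)) := by
        intro j
        have : f (k + j + 1) = b * f (k + j) + g (k + j + 1) := rfl
        rw [show k + 1 + j = k + j + 1 by ring, this]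
        ring
      simp_rw [e5]
      rw [Finset.sum_sub_distrib, ← Finset.mul_sum]
      simp only [dlt, hU]
      linear_combination hv
    rw [e4]
    split_ifs with hc
    · rw [mul_one]
      push_cast
      rw [abs_mul, hB]
      apply mul_le_mul_of_nonneg_left _ (abs_nonneg _)
      refine (abs_sub _ _).trans ?_
      apply add_le_add _ le_rfl
      refine (Finset.abs_sum_le_sum_abs _ _).trans ?_
      apply Finset.sum_le_sum
      intro j _
      rw [abs_mul]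
      apply mul_le_mul_of_nonneg_left _ (abs_nonneg _)
      have := hG (k + 1 + j) (by omega)
      exact_mod_cast this
    · rw [not_not] at hc
      rw [hc]; simp
  have hU0 : |(U 0 : ℝ)| ≤ u := by
    have a1 := happ 0
    rw [pow_zero, one_mul] at a1
    have a2 : |(U 0 : ℝ)| ≤ |(U 0 : ℝ) - t| + |t| := by
      calc |(U 0 : ℝ)| = |((U 0 : ℝ) - t) + t| := by ring_nf
        _ ≤ _ := abs_add_le _ _
    linarith
  have hV0 : (0 : ℝ) ≤ (V b U N : ℝ) := by exact_mod_cast V_nonneg b U _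
  have hc0 : (0 : ℝ) ≤ (fails g m q e N : ℝ) := by positivity
  have h6 : 1 + (V b U N : ℝ) ≤ (1 + u + B) * (1 + (fails g m q e N : ℝ)) := by nlinarith
  calc (N : ℝ) ≤ C1 * (1 + (V b U N : ℝ)) ^ τ := h2
    _ ≤ C1 * ((1 + u + B) * (1 + (fails g m q e N : ℝ))) ^ τ := by
        apply mul_le_mul_of_nonneg_left _ hC1.le
        exact pow_le_pow_left₀ (by linarith) h6 _
    _ = _ := by rw [mul_pow]; ring

/-- adding an integer -/
lemma rate_add_int (b : ℕ) (t : ℝ) (a : ℤ) (τ : ℕ) (h : Rate b t τ) :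
    Rate b (t + a) τ := by
  intro C0
  obtain ⟨C, hC, h1⟩ := h C0
  refine ⟨C * (1 + |(a : ℝ)|) ^ τ, by positivity, ?_⟩
  intro U hU N
  set U' : ℕ → ℤ := fun K => U K - (b : ℤ) ^ K * a with hU'
  have h2 := h1 U' (by
    intro K
    have := hU K
    have e : (U' K : ℝ) - (b : ℝ) ^ K * t = (U K : ℝ) - (b : ℝ) ^ K * (t + a) := by
      simp only [hU']; push_cast; ring
    rw [e]; exact this) N
  have hV : (V b U' N : ℝ) ≤ (V b U N : ℝ) + |(a : ℝ)| := by
    unfold V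
    rw [Finset.sum_range_succ', Finset.sum_range_succ']
    push_cast
    have e1 : ∀ k, dlt b U' (k + 1) = dlt b U (k + 1) := by
      intro k
      simp only [dlt, hU', pow_succ]
      ring
    simp_rw [e1]
    have e2 : |(dlt b U' 0 : ℝ)| ≤ |(dlt b U 0 : ℝ)| + |(a : ℝ)| := by
      have : (dlt b U' 0 : ℝ) = (dlt b U 0 : ℝ) - a := by
        simp [dlt, hU']
      rw [this]
      exact abs_sub _ _
    linarith
  have hV0 : (0 : ℝ) ≤ (V b U N : ℝ) := by exact_mod_cast V_nonneg b U _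
  have hV0' : (0 : ℝ) ≤ (V b U' N : ℝ) := by exact_mod_cast V_nonneg b U' _
  have ha : 0 ≤ |(a : ℝ)| := abs_nonneg _
  have h6 : 1 + (V b U' N : ℝ) ≤ (1 + |(a : ℝ)|) * (1 + (V b U N : ℝ)) := by nlinarith
  calc (N : ℝ) ≤ C * (1 + (V b U' N : ℝ)) ^ τ := h2
    _ ≤ C * ((1 + |(a : ℝ)|) * (1 + (V b U N : ℝ))) ^ τ := by
        apply mul_le_mul_of_nonneg_left _ hC.le
        exact pow_le_pow_left₀ (by linarith) h6 _
    _ = _ := by rw [mul_pow]; ring

end Pool.Agent.U363.EX
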