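import Pool.Agent.U363.EX.Pair
import Pool.Agent.H323R2.Alg

/-!
Numbers in a field with a subfield all of whose primes above `p` are ramified: explicit exponents
which do not depend on the base.
-/

set_option autoImplicit false

namespace Pool.Agent.U363.EX

open Polynomial Finset Pool.Agent.H323R2 NumberField IntermediateField

lemma charpoly_pre (L : Type) [Field L] [NumberField L] {p : ℕ} (hp : p.Prime) (y : 𝓞 L) (n : ℕ)
    (hy : (p : 𝓞 L) ∣ y ^ n) :
    ∃ F : ℤ[X], Pre F p 0 (Module.finrank ℚ L) ∧ aeval y F = 0 := by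
  classical
  have hp' : Fact p.Prime := ⟨hp⟩
  let B := RingOfIntegers.basis L
  set M := Algebra.leftMulMatrix B y with hM
  have hcard : Fintype.card (Module.Free.ChooseBasisIndex ℤ (𝓞 L)) = Module.finrank ℚ L := by
    rw [← RingOfIntegers.rank L, Module.finrank_eq_card_chooseBasisIndex]
  refine ⟨M.charpoly, ⟨M.charpoly_monic, ?_, Module.finrank_pos, ?_⟩, ?_⟩
  · rw [Matrix.charpoly_natDegree_eq_dim, hcard]
  · intro m hm
    rw [zero_mul, zero_add, pow_one]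
    obtain ⟨z, hz⟩ := hy
    have hnil : IsNilpotent (M.map (Int.castRingHom (ZMod p))) := by
      refine ⟨n, ?_⟩
      have h1 : M.map (Int.castRingHom (ZMod p)) =
        (Int.castRingHom (ZMod p)).mapMatrix M := rfl
      rw [h1, ← map_pow, hM, ← map_pow, hz, map_mul, map_mul, map_natCast, map_natCast]
      simp
    have h2 := Matrix.isNilpotent_charpoly_sub_pow_of_isNilpotent hnil
    have h3 := h2.eq_zero
    rw [sub_eq_zero, Matrix.charpoly_map, hcard] at h3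
    have h4 : ((M.charpoly.map (Int.castRingHom (ZMod p))).coeff m) = 0 := by
      rw [h3, coeff_X_pow, if_neg (by omega)]
    rw [coeff_map] at h4
    rw [← ZMod.intCast_zmod_eq_zero_iff_dvd]
    exact h4
  · apply Algebra.leftMulMatrix_injective B
    rw [map_zero, ← Polynomial.aeval_algHom_apply]
    exact M.aeval_self_charpoly

lemma exists_int_poly_deg (x : ℝ) (halg : IsAlgebraic ℚ x) (y : ℚ⟮x⟯) :
    ∃ (w : ℤ) (g : ℤ[X]), w ≠ 0 ∧ g.natDegree ≤ (minpoly ℚ x).natDegree - 1 ∧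
      (w : ℝ) * (y : ℝ) = (g.map (Int.castRingHom ℝ)).eval x := by
  have hint : IsIntegral ℚ x := halg.isIntegral
  have hy : (y : ℝ) ∈ (ℚ⟮x⟯).toSubalgebra := y.2
  rw [adjoin_simple_toSubalgebra_of_isAlgebraic halg, Algebra.adjoin_singleton_eq_range_aeval] at hy
  obtain ⟨f0, hf0⟩ := hy
  set f := f0 %ₘ minpoly ℚ x with hf
  have hfx : aeval x f = (y : ℝ) := by
    rw [hf, aeval_modByMonic_eq_self_of_root (minpoly.aeval ℚ x)]
    exact hf0
  have hdeg : f.natDegree ≤ (minpoly ℚ x).natDegree - 1 := by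
    have h1 : f.natDegree < (minpoly ℚ x).natDegree :=
      natDegree_modByMonic_lt _ (minpoly.monic hint) (minpoly.ne_one ℚ x)
    omega
  obtain ⟨w, hw, hmap⟩ := IsLocalization.integerNormalization_spec (nonZeroDivisors ℤ) f
  refine ⟨w, IsLocalization.integerNormalization (nonZeroDivisors ℤ) f,
    nonZeroDivisors.ne_zero hw, ?_, ?_⟩
  · have h1 : (IsLocalization.integerNormalization (nonZeroDivisors ℤ) f).natDegree =
        ((IsLocalization.integerNormalization (nonZeroDivisors ℤ) f).map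
          (algebraMap ℤ ℚ)).natDegree :=
      (natDegree_map_eq_of_injective (algebraMap ℤ ℚ).injective_int _).symm
    rw [h1, hmap]
    exact (natDegree_smul_le _ _).trans hdeg
  · have h1 : (IsLocalization.integerNormalization (nonZeroDivisors ℤ) f).map (Int.castRingHom ℝ) =
        ((IsLocalization.integerNormalization (nonZeroDivisors ℤ) f).map
          (algebraMap ℤ ℚ)).map (algebraMap ℚ ℝ) := by
      rw [Polynomial.map_map]; congr 1
    rw [h1, hmap, Polynomial.eval_map_algebraMap, ← hfx]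
    simp

lemma Pre.scale {g : ℤ[X]} {p D : ℕ} (hg : Pre g p 0 D) (Λ : ℤ) :
    Pre (g.scaleRoots Λ) p (padicValInt p Λ) D := by
  have hdvd : (p : ℤ) ^ padicValInt p Λ ∣ Λ := padicValInt_dvd Λ
  refine ⟨(monic_scaleRoots_iff Λ).2 hg.monic, by rw [natDegree_scaleRoots, hg.deg], hg.pos, ?_⟩
  intro m hm
  rw [coeff_scaleRoots, hg.deg, mul_comm (g.coeff m), pow_add, pow_mul]
  apply mul_dvd_mul (pow_dvd_pow_of_dvd hdvd _)
  have := hg.coeff_dvd m hm
  rwa [zero_mul, zero_add] at this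

/-- Explicit rate in a field with a subfield in which all primes above `p` are ramified. -/
theorem rate_field (x : ℝ) (halg : IsAlgebraic ℚ x) (L : Type) [Field L] [NumberField L]
    (φ : L →+* ℚ⟮x⟯) (p : ℕ) (hp : p.Prime)
    (h : ∀ P : Ideal (𝓞 L), P.IsPrime → (p : 𝓞 L) ∈ P → (p : 𝓞 L) ∈ P ^ 2) :
    ∃ κ : ℕ, ∀ s : ℕ, Module.finrank ℚ L ≤ p ^ s → ∀ b : ℕ, 2 ≤ b → ¬ p ∣ b → ∀ Λ a : ℤ, Λ ≠ 0 →
      Rate b (Λ * x + a) (((minpoly ℚ x).natDegree - 1) *
        (2 + (κ + ((minpoly ℚ x).natDegree - 1) * padicValInt p Λ + 1) * (p ^ s - 1))) := by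
  have hp' : Fact p.Prime := ⟨hp⟩
  set D1 := (minpoly ℚ x).natDegree - 1 with hD1
  obtain ⟨y, u, N, n, hn, hN, hyu, hy, hu⟩ := exists_yu L p hp h
  obtain ⟨F₁, hF₁, hFy⟩ := charpoly_pre L hp y n hy
  obtain ⟨F₂, hF₂, hFu⟩ := charpoly_pre L hp u n hu
  obtain ⟨w₁, g₁, hw₁, hg₁, hgy⟩ := exists_int_poly_deg x halg (φ (y : L))
  obtain ⟨w₂, g₂, hw₂, hg₂, hgu⟩ := exists_int_poly_deg x halg (φ (u : L))
  set ψ : 𝓞 L →+* ℝ := (((ℚ⟮x⟯).val : ℚ⟮x⟯ →+* ℝ).comp φ).comp (algebraMap (𝓞 L) L) with hψ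
  have hy1 : ((φ (y : L) : ℚ⟮x⟯) : ℝ) = ψ y := rfl
  have hu1 : ((φ (u : L) : ℚ⟮x⟯) : ℝ) = ψ u := rfl
  rw [hy1] at hgy
  rw [hu1] at hgu
  have hroot : ∀ (z : 𝓞 L) (F : ℤ[X]), aeval z F = 0 → eval₂ (Int.castRingHom ℝ) (ψ z) F = 0 := by
    intro z F hz
    have h1 : eval₂ (Int.castRingHom ℝ) (ψ z) F = ψ (aeval z F) := by
      rw [aeval_def, hom_eval₂]
      congr 1
      exact RingHom.ext_int _ _
    rw [h1, hz, map_zero]
  refine ⟨max (padicValInt p w₁) (padicValInt p w₂), ?_⟩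
  intro s hs b hb hpb Λ a hΛ
  apply rate_add_int
  set v := padicValInt p Λ with hv
  set W₁ : ℤ := Λ ^ g₁.natDegree * w₁ with hW₁
  set W₂ : ℤ := Λ ^ g₂.natDegree * w₂ with hW₂
  have hW₁0 : W₁ ≠ 0 := mul_ne_zero (pow_ne_zero _ hΛ) hw₁
  have hW₂0 : W₂ ≠ 0 := mul_ne_zero (pow_ne_zero _ hΛ) hw₂
  have hvpow : ∀ k : ℕ, padicValInt p (Λ ^ k) = k * v := by
    intro k
    induction k with
    | zero => simp
    | succ k ih => rw [pow_succ, padicValInt.mul (pow_ne_zero _ hΛ) hΛ, ih]; ring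
  have hv₁ : padicValInt p W₁ = g₁.natDegree * v + padicValInt p w₁ := by
    rw [hW₁, padicValInt.mul (pow_ne_zero _ hΛ) hw₁, hvpow]
  have hv₂ : padicValInt p W₂ = g₂.natDegree * v + padicValInt p w₂ := by
    rw [hW₂, padicValInt.mul (pow_ne_zero _ hΛ) hw₂, hvpow]
  have hgt₁ : eval₂ (Int.castRingHom ℝ) ((Λ : ℝ) * x) (g₁.scaleRoots Λ) = (W₁ : ℝ) * ψ y := by
    have h1 := scaleRoots_eval₂_mul (p := g₁) (Int.castRingHom ℝ) x Λ
    rw [eq_intCast] at h1
    rw [h1, ← eval_map, ← hgy, hW₁]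
    push_cast
    ring
  have hgt₂ : eval₂ (Int.castRingHom ℝ) ((Λ : ℝ) * x) (g₂.scaleRoots Λ) = (W₂ : ℝ) * ψ u := by
    have h1 := scaleRoots_eval₂_mul (p := g₂) (Int.castRingHom ℝ) x Λ
    rw [eq_intCast] at h1
    rw [h1, ← eval_map, ← hgu, hW₂]
    push_cast
    ring
  refine rate_of_pair (p := p) hb hpb (g := g₁.scaleRoots Λ) (h := g₂.scaleRoots Λ)
    (F₁ := F₁.scaleRoots W₁) (F₂ := F₂.scaleRoots W₂) (hF₁.scale W₁) (hF₂.scale W₂) hs hs ?_ ?_
    ?_ ?_ ((Λ : ℝ) * x) ?_ ?_ (W₁ * W₂ * (N * p)) ?_ ?_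
  · rw [hv₁, add_comm]
    exact Nat.add_le_add (le_max_left _ _) (Nat.mul_le_mul_right v hg₁)
  · rw [hv₂, add_comm]
    exact Nat.add_le_add (le_max_right _ _) (Nat.mul_le_mul_right v hg₂)
  · rw [natDegree_scaleRoots]; exact hg₁
  · rw [natDegree_scaleRoots]; exact hg₂
  · rw [eval_map, eval₂_comp, hgt₁]
    have h1 := scaleRoots_eval₂_eq_zero (Int.castRingHom ℝ) (s := W₁) (hroot y F₁ hFy)
    simpa using h1
  · rw [eval_map, eval₂_comp, hgt₂]
    have h1 := scaleRoots_eval₂_eq_zero (Int.castRingHom ℝ) (s := W₂) (hroot u F₂ hFu)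
    simpa using h1
  · rw [padicValInt_dvd_iff]
    have hN0 : N ≠ 0 := by
      rintro rfl; exact hN (dvd_zero _)
    have hpz : (p : ℤ) ≠ 0 := by exact_mod_cast hp.ne_zero
    have h0 : W₁ * W₂ * (N * p) ≠ 0 := mul_ne_zero (mul_ne_zero hW₁0 hW₂0) (mul_ne_zero hN0 hpz)
    rintro (h1 | h1)
    · exact h0 h1
    · rw [padicValInt.mul (mul_ne_zero hW₁0 hW₂0) (mul_ne_zero hN0 hpz),
        padicValInt.mul hW₁0 hW₂0, padicValInt.mul hN0 hpz, padicValInt_self,
        padicValInt.eq_zero_of_not_dvd hN] at h1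
      omega
  · rw [Polynomial.map_sub, Polynomial.map_mul, eval_sub, eval_mul, eval_map, eval_map, hgt₁, hgt₂,
      Polynomial.map_C, eval_C]
    have h1 : ψ y * ψ u = (N : ℝ) * p := by
      rw [← map_mul, hyu, map_mul, map_intCast, map_natCast]
    rw [eq_intCast]
    push_cast
    linear_combination (W₁ : ℝ) * W₂ * h1

end Pool.Agent.U363.EX
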