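import Pool.Agent.U363.EX.Alg

/-!
Numbers `t` with two polynomial images `g(t)`, `h(t)` of large `p`-adic valuation whose product is
an integer of small valuation.
-/

set_option autoImplicit false

namespace Pool.Agent.U363.EX

open Polynomial Finset Pool.Agent.H323R2

lemma zero_mem_T {K : Finset ℕ} (h0 : 0 ∈ K) (d : ℕ) : 0 ∈ T K d := by
  have := T_mono K h0 (Nat.zero_le d)
  exact this (by simp [T])

lemma cov_comp {K : Finset ℕ} (h0 : 0 ∈ K) {g P : ℤ[X]} (hP : Cov P K) {d : ℕ}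
    (hd : g.natDegree ≤ d) : Cov (g.comp P) (T K d) := by
  intro i hi
  rw [Polynomial.comp, Polynomial.eval₂_eq_sum_range, Polynomial.finsetSum_coeff] at hi
  obtain ⟨m, hm, h⟩ := Finset.exists_ne_zero_of_sum_ne_zero hi
  rw [Finset.mem_range] at hm
  rw [Polynomial.coeff_C_mul] at h
  exact T_mono K h0 (by omega) (cov_pow hP m i (right_ne_zero_of_mul h))

/-- the last step -/
lemma top_pair {p b : ℕ} [Fact p.Prime] (hpb : ¬ p ∣ b) {G H : ℤ[X]} {K₁ K₂ : Finset ℕ}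
    (h1 : 0 ∈ K₁) (h2 : 0 ∈ K₂) (hG : Cov G K₁) (hH : Cov H K₂) (α β : ℕ) (c : ℤ)
    (hc : ¬ (p : ℤ) ^ (α + β) ∣ c) (E : Finset ℕ) (n : ℕ)
    (hE : ∀ R ≤ n, R ∉ E → S b (G * H) R = c * (b : ℤ) ^ R) :
    n + 1 ≤ E.card + (K₁.card * (OO b p H β n).card + K₂.card * (OO b p G α n).card) := by
  classical
  have hp : p.Prime := Fact.out
  have hp0 : (p : ℤ) ≠ 0 := by exact_mod_cast hp.ne_zero
  obtain ⟨W₁, hW₁, hs₁⟩ := split b ((p : ℤ) ^ α) (pow_ne_zero _ hp0)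
    (isCoprime_pow hp hpb α) G n K₁ h1 hG
  obtain ⟨W₂, hW₂, hs₂⟩ := split b ((p : ℤ) ^ β) (pow_ne_zero _ hp0)
    (isCoprime_pow hp hpb β) H n K₂ h2 hH
  have hcov₂ : Cov (C ((p : ℤ) ^ β) * W₂) K₂ := by
    intro i hi
    rw [Polynomial.coeff_C_mul] at hi
    exact hW₂ i (right_ne_zero_of_mul hi)
  have hsub : range (n + 1) ⊆ E ∪ (Finset.image₂ (· + ·) K₁ (OO b p H β n) ∪
      Finset.image₂ (· + ·) K₂ (OO b p G α n)) := by
    intro R hR
    by_contra hcon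
    rw [Finset.mem_union, Finset.mem_union, not_or, not_or] at hcon
    rw [Finset.mem_range] at hR
    obtain ⟨hn0, hn1, hn2⟩ := hcon
    have e0 := hE R (by omega) hn0
    have e1 : S b (G * H) R = S b (G * (C ((p : ℤ) ^ β) * W₂)) R := by
      refine replace hG ?_
      intro i hi hi'
      rw [S_C_mul]
      apply hs₂ _ (by omega)
      by_contra h3
      apply hn1
      refine Finset.mem_image₂.2 ⟨i, hi, R - i, ?_, by omega⟩
      unfold OO
      rw [Finset.mem_filter, Finset.mem_range]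
      exact ⟨by omega, h3⟩
    have e2 : S b ((C ((p : ℤ) ^ β) * W₂) * G) R =
        S b ((C ((p : ℤ) ^ β) * W₂) * (C ((p : ℤ) ^ α) * W₁)) R := by
      refine replace hcov₂ ?_
      intro i hi hi'
      rw [S_C_mul]
      apply hs₁ _ (by omega)
      by_contra h3
      apply hn2
      refine Finset.mem_image₂.2 ⟨i, hi, R - i, ?_, by omega⟩
      unfold OO
      rw [Finset.mem_filter, Finset.mem_range]
      exact ⟨by omega, h3⟩
    rw [e1, mul_comm G, e2, show (C ((p : ℤ) ^ β) * W₂) * (C ((p : ℤ) ^ α) * W₁) =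
      C ((p : ℤ) ^ (α + β)) * (W₂ * W₁) by rw [pow_add, C_mul]; ring, S_C_mul] at e0
    have h4 : (p : ℤ) ^ (α + β) ∣ c * (b : ℤ) ^ R := ⟨_, e0.symm⟩
    exact hc (((isCoprime_pow hp hpb _).pow_right).dvd_of_dvd_mul_right h4)
  have h5 := Finset.card_le_card hsub
  rw [Finset.card_range] at h5
  refine h5.trans ((Finset.card_union_le _ _).trans ?_)
  apply Nat.add_le_add_left
  refine (Finset.card_union_le _ _).trans ?_
  exact Nat.add_le_add (Finset.card_image₂_le _ _ _) (Finset.card_image₂_le _ _ _)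

theorem rate_of_pair {p b : ℕ} [Fact p.Prime] (hb : 2 ≤ b) (hpb : ¬ p ∣ b) {g h F₁ F₂ : ℤ[X]}
    {κ κ₁ κ₂ n₁ n₂ d s : ℕ} (hF₁ : Pre F₁ p κ₁ n₁) (hF₂ : Pre F₂ p κ₂ n₂) (hs₁ : n₁ ≤ p ^ s)
    (hs₂ : n₂ ≤ p ^ s) (hκ₁ : κ₁ ≤ κ) (hκ₂ : κ₂ ≤ κ) (hg : g.natDegree ≤ d) (hh : h.natDegree ≤ d)
    (t : ℝ) (ht₁ : ((F₁.comp g).map (Int.castRingHom ℝ)).eval t = 0)
    (ht₂ : ((F₂.comp h).map (Int.castRingHom ℝ)).eval t = 0) (c : ℤ)
    (hc : ¬ (p : ℤ) ^ (κ₁ + κ₂ + 2) ∣ c)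
    (hgh : ((g * h - C c).map (Int.castRingHom ℝ)).eval t = 0) :
    Rate b t (d * (2 + (κ + 1) * (p ^ s - 1))) := by
  classical
  intro C0
  have hp : p.Prime := Fact.out
  obtain ⟨A₁, hA₁, hEE₁⟩ := exists_EE b hb (F₁.comp g) t C0 ht₁
  obtain ⟨A₂, hA₂, hEE₂⟩ := exists_EE b hb (F₂.comp h) t C0 ht₂
  obtain ⟨A₃, hA₃, hEE₃⟩ := exists_EE b hb (g * h - C c) t C0 hgh
  set q := p ^ s with hq
  have hq0 : 0 < q := pow_pos hp.pos _
  set ρ := 2 + (κ + 1) * (q - 1) with hρ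
  set A : ℝ := max A₁ (max A₂ A₃) with hA
  have hAA₁ : A₁ ≤ A := le_max_left _ _
  have hAA₂ : A₂ ≤ A := (le_max_left _ _).trans (le_max_right _ _)
  have hAA₃ : A₃ ≤ A := (le_max_right _ _).trans (le_max_right _ _)
  have hA1 : 1 ≤ A := hA₁.trans hAA₁
  refine ⟨(q : ℝ) ^ (κ + 1) * (A + 2 * (3 * A) ^ (κ + 1)), by positivity, ?_⟩
  intro U hU N
  set L : ℝ := 1 + (V b U N : ℝ) with hL
  have hV0 : (0 : ℝ) ≤ (V b U N : ℝ) := by exact_mod_cast V_nonneg b U _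
  have hL1 : 1 ≤ L := by linarith
  obtain ⟨K, h0K, hcov, hKL⟩ := exists_cover b U N
  have hK0 : (0 : ℝ) ≤ (K.card : ℝ) := by positivity
  set P := Pol b U N with hP
  -- the composites
  set M : ℝ := L ^ d with hM
  have hM1 : 1 ≤ M := one_le_pow₀ hL1
  have hTM : ((T K d).card : ℝ) ≤ M := by
    have a1 : ((T K d).card : ℝ) ≤ (K.card : ℝ) ^ d := by exact_mod_cast card_T K d
    exact a1.trans (pow_le_pow_left₀ hK0 hKL _)
  have hT0 : (0 : ℝ) ≤ ((T K d).card : ℝ) := by positivity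
  have hcg : Cov (g.comp P) (T K d) := cov_comp h0K hcov hg
  have hch : Cov (h.comp P) (T K d) := cov_comp h0K hcov hh
  have h0T : 0 ∈ T K d := zero_mem_T h0K d
  have hE₁ : ∀ n ≤ N, ((EE b F₁ (g.comp P) n).card : ℝ) ≤ A * M ^ n₁ := by
    intro n hn
    have a1 := hEE₁ U hU N n hn
    have a2 : EE b F₁ (g.comp P) n = EE b (F₁.comp g) P n := by
      unfold EE; rw [Polynomial.comp_assoc]
    rw [a2]
    have a3 : (F₁.comp g).natDegree ≤ d * n₁ := by
      refine (natDegree_comp_le).trans ?_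
      rw [hF₁.deg, mul_comm]
      exact Nat.mul_le_mul_right _ hg
    have a4 : L ^ (F₁.comp g).natDegree ≤ M ^ n₁ := by
      rw [hM, ← pow_mul]
      exact pow_le_pow_right₀ hL1 a3
    refine a1.trans ?_
    exact mul_le_mul hAA₁ a4 (by positivity) (by linarith)
  have hE₂ : ∀ n ≤ N, ((EE b F₂ (h.comp P) n).card : ℝ) ≤ A * M ^ n₂ := by
    intro n hn
    have a1 := hEE₂ U hU N n hn
    have a2 : EE b F₂ (h.comp P) n = EE b (F₂.comp h) P n := by
      unfold EE; rw [Polynomial.comp_assoc]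
    rw [a2]
    have a3 : (F₂.comp h).natDegree ≤ d * n₂ := by
      refine (natDegree_comp_le).trans ?_
      rw [hF₂.deg, mul_comm]
      exact Nat.mul_le_mul_right _ hh
    have a4 : L ^ (F₂.comp h).natDegree ≤ M ^ n₂ := by
      rw [hM, ← pow_mul]
      exact pow_le_pow_right₀ hL1 a3
    refine a1.trans ?_
    exact mul_le_mul hAA₂ a4 (by positivity) (by linarith)
  have key₁ := chain hpb hF₁ hs₁ h0T hcg hA1 hM1 hTM hE₁
  have key₂ := chain hpb hF₂ hs₂ h0T hch hA1 hM1 hTM hE₂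
  set n := N / q ^ (κ + 1) with hn
  have hqpos : 0 < q ^ (κ + 1) := pow_pos hq0 _
  have hn1' : q ^ (κ + 1) * n ≤ N := Nat.mul_div_le _ _
  have hnN : n ≤ N := Nat.div_le_self _ _
  have hle : ∀ κ' ≤ κ, q ^ (κ' + 1) * n ≤ N := by
    intro κ' hκ'
    refine le_trans ?_ hn1'
    exact Nat.mul_le_mul_right _ (Nat.pow_le_pow_right hq0 (by omega))
  have b₁ := key₁ (κ₁ + 1) le_rfl n (hle κ₁ hκ₁)
  have b₂ := key₂ (κ₂ + 1) le_rfl n (hle κ₂ hκ₂)
  have hmono : ∀ κ' ≤ κ, (3 * A) ^ (κ' + 1) * M ^ (1 + (κ' + 1) * (q - 1)) ≤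
      (3 * A) ^ (κ + 1) * M ^ (1 + (κ + 1) * (q - 1)) := by
    intro κ' hκ'
    apply mul_le_mul
    · exact pow_le_pow_right₀ (by linarith) (by omega)
    · apply pow_le_pow_right₀ hM1
      have := Nat.mul_le_mul_right (q - 1) (show κ' + 1 ≤ κ + 1 by omega)
      omega
    · positivity
    · positivity
  have b₁' := b₁.trans (hmono κ₁ hκ₁)
  have b₂' := b₂.trans (hmono κ₂ hκ₂)
  set Y : ℝ := (3 * A) ^ (κ + 1) * M ^ (1 + (κ + 1) * (q - 1)) with hY
  have hY0 : 0 ≤ Y := by positivity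
  have htop := top_pair (p := p) hpb h0T h0T hcg hch (κ₁ + 1) (κ₂ + 1) c
    (by rw [show κ₁ + 1 + (κ₂ + 1) = κ₁ + κ₂ + 2 by ring]; exact hc)
    (EE b (g * h - C c) P n) n (by
      intro R hR hRE
      have a1 : S b ((g * h - C c).comp P) R = 0 := by
        by_contra h1
        apply hRE
        unfold EE
        rw [Finset.mem_filter, Finset.mem_range]
        exact ⟨by omega, h1⟩
      have a2 : (g * h - C c).comp P = g.comp P * h.comp P + C (-c) * 1 := by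
        rw [sub_comp, mul_comp, C_comp, C_neg]; ring
      rw [a2, S_add, S_C_mul, S_one] at a1
      linarith)
  have htop' : (n : ℝ) + 1 ≤ ((EE b (g * h - C c) P n).card : ℝ) +
      (((T K d).card : ℝ) * ((OO b p (h.comp P) (κ₂ + 1) n).card : ℝ) +
        ((T K d).card : ℝ) * ((OO b p (g.comp P) (κ₁ + 1) n).card : ℝ)) := by
    exact_mod_cast htop
  have e3 : ((EE b (g * h - C c) P n).card : ℝ) ≤ A * M ^ 2 := by
    have a1 := hEE₃ U hU N n hnN
    have a3 : (g * h - C c).natDegree ≤ d * 2 := by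
      refine (natDegree_sub_le _ _).trans ?_
      rw [natDegree_C]
      apply max_le _ (Nat.zero_le _)
      refine (natDegree_mul_le).trans ?_
      omega
    have a4 : L ^ (g * h - C c).natDegree ≤ M ^ 2 := by
      rw [hM, ← pow_mul]
      exact pow_le_pow_right₀ hL1 a3
    refine a1.trans ?_
    exact mul_le_mul hAA₃ a4 (by positivity) (by linarith)
  have e4 : ((T K d).card : ℝ) * ((OO b p (h.comp P) (κ₂ + 1) n).card : ℝ) ≤ M * Y :=
    mul_le_mul hTM b₂' (by positivity) (by linarith)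
  have e5 : ((T K d).card : ℝ) * ((OO b p (g.comp P) (κ₁ + 1) n).card : ℝ) ≤ M * Y :=
    mul_le_mul hTM b₁' (by positivity) (by linarith)
  have e6 : M * Y = (3 * A) ^ (κ + 1) * M ^ ρ := by
    have : M ^ ρ = M * M ^ (1 + (κ + 1) * (q - 1)) := by
      rw [← pow_succ']; congr 1; omega
    rw [this]; ring
  have e7 : A * M ^ 2 ≤ A * M ^ ρ := by
    apply mul_le_mul_of_nonneg_left _ (by linarith)
    exact pow_le_pow_right₀ hM1 (by omega)
  have e8 : (n : ℝ) + 1 ≤ (A + 2 * (3 * A) ^ (κ + 1)) * M ^ ρ := by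
    rw [add_mul]
    linarith
  have e9 : (N : ℝ) ≤ (q : ℝ) ^ (κ + 1) * ((n : ℝ) + 1) := by
    have : N < q ^ (κ + 1) * (n + 1) := Nat.lt_mul_div_succ N hqpos
    exact_mod_cast this.le
  have e10 : M ^ ρ = L ^ (d * ρ) := by rw [hM, ← pow_mul]
  rw [e10] at e8
  calc (N : ℝ) ≤ (q : ℝ) ^ (κ + 1) * ((n : ℝ) + 1) := e9
    _ ≤ (q : ℝ) ^ (κ + 1) * ((A + 2 * (3 * A) ^ (κ + 1)) * L ^ (d * ρ)) := by
        apply mul_le_mul_of_nonneg_left e8 (by positivity)
    _ = _ := by ring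

end Pool.Agent.U363.EX
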