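import Pool.Agent.U363.EX.Step

/-!
Explicit exponents for the base `b` variation of the approximating sequences of a number `t`
which is a root of a (scaled) Eisenstein polynomial.
-/

set_option autoImplicit false

namespace Pool.Agent.U363.EX

open Polynomial Finset Pool.Agent.H323R2

/-- every integer sequence `U_K = b^K t + O(1)` has base `b` variation at least `c N^(1/τ)` -/
def Rate (b : ℕ) (t : ℝ) (τ : ℕ) : Prop :=
  ∀ C0 : ℝ, ∃ C : ℝ, 0 < C ∧ ∀ U : ℕ → ℤ, (∀ K, |(U K : ℝ) - (b : ℝ) ^ K * t| ≤ C0) →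
    ∀ N : ℕ, (N : ℝ) ≤ C * (1 + (V b U N : ℝ)) ^ τ

lemma card_support_le (P : ℤ[X]) : (P.support.card : ℤ) ≤ n1 P := by
  refine le_trans ?_ (sum_abs_coeff_le P P.support)
  rw [Finset.card_eq_sum_ones]
  push_cast
  apply Finset.sum_le_sum
  intro i hi
  rw [Polynomial.mem_support_iff] at hi
  exact Int.one_le_abs hi

lemma EE_mono (b : ℕ) (f P : ℤ[X]) {m n : ℕ} (h : m ≤ n) : EE b f P m ⊆ EE b f P n := by
  unfold EE
  apply Finset.filter_subset_filter
  intro i hi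
  rw [Finset.mem_range] at *
  omega

lemma card_EE_le (b : ℕ) (f P : ℤ[X]) (N : ℕ) :
    ((EE b f P N).card : ℝ) ≤ ∑ R ∈ range (N + 1), (|S b (f.comp P) R| : ℝ) := by
  unfold EE
  calc (((range (N + 1)).filter (fun R => S b (f.comp P) R ≠ 0)).card : ℝ)
      = ∑ R ∈ (range (N + 1)).filter (fun R => S b (f.comp P) R ≠ 0), (1 : ℝ) := by simp
    _ ≤ ∑ R ∈ (range (N + 1)).filter (fun R => S b (f.comp P) R ≠ 0),
          (|S b (f.comp P) R| : ℝ) := by
        apply Finset.sum_le_sum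
        intro R hR
        rw [Finset.mem_filter] at hR
        exact_mod_cast Int.one_le_abs hR.2
    _ ≤ _ := by
        apply Finset.sum_le_sum_of_subset_of_nonneg (Finset.filter_subset _ _)
        intro _ _ _; exact abs_nonneg _

/-- the bounds along the chain -/
theorem chain {p b : ℕ} [Fact p.Prime] (hpb : ¬ p ∣ b) {f : ℤ[X]} {κ D s : ℕ}
    (hf : Pre f p κ D) (hs : D ≤ p ^ s) {P : ℤ[X]} {K : Finset ℕ} (h0K : 0 ∈ K) (hcov : Cov P K)
    {N : ℕ} {A L : ℝ} (hA1 : 1 ≤ A) (hL1 : 1 ≤ L) (hKL : (K.card : ℝ) ≤ L)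
    (hE : ∀ n ≤ N, ((EE b f P n).card : ℝ) ≤ A * L ^ D) :
    ∀ j ≤ κ + 1, ∀ n, (p ^ s) ^ j * n ≤ N →
      ((OO b p P j n).card : ℝ) ≤ (3 * A) ^ j * L ^ (1 + j * (p ^ s - 1)) := by
  classical
  have hp : p.Prime := Fact.out
  set q := p ^ s with hq
  have hq0 : 0 < q := pow_pos hp.pos _
  have hD := hf.pos
  have hK0 : (0 : ℝ) ≤ (K.card : ℝ) := by positivity
  intro j
  induction j with
  | zero =>
    intro _ n _
    have : OO b p P 0 n = ∅ := by
      unfold OO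
      rw [Finset.filter_eq_empty_iff]
      intro x _
      simp
    rw [this]
    simp only [Finset.card_empty, Nat.cast_zero]
    positivity
  | succ j ih =>
    intro hj n hn
    have hqn : q ^ j * (q * n) ≤ N := by
      rw [← mul_assoc, ← pow_succ]; exact hn
    have ih' := ih (by omega) (q * n) hqn
    have hqn' : q * n ≤ N := by
      refine le_trans ?_ hqn
      exact Nat.le_mul_of_pos_left _ (pow_pos hq0 _)
    have hst := step_card hpb hf hs (show j ≤ κ by omega) h0K hcov n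
    have hst' : ((OO b p P (j + 1) n).card : ℝ) ≤ ((OO b p P j (q * n)).card : ℝ) +
        (K.card : ℝ) ^ (q - D) * (((EE b f P (q * n)).card : ℝ) +
        (K.card : ℝ) ^ (D - 1) * ((OO b p P j (q * n)).card : ℝ)) := by
      exact_mod_cast hst
    set x : ℝ := ((OO b p P j (q * n)).card : ℝ) with hx
    have hx0 : 0 ≤ x := by positivity
    have e1 : (K.card : ℝ) ^ (q - D) ≤ L ^ (q - D) := pow_le_pow_left₀ hK0 hKL _
    have e2 : (K.card : ℝ) ^ (D - 1) ≤ L ^ (D - 1) := pow_le_pow_left₀ hK0 hKL _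
    have e3 := hE (q * n) hqn'
    have e4 : (K.card : ℝ) ^ (q - D) * (((EE b f P (q * n)).card : ℝ) +
        (K.card : ℝ) ^ (D - 1) * x) ≤ L ^ (q - D) * (A * L ^ D + L ^ (D - 1) * x) := by
      apply mul_le_mul e1 _ (by positivity) (by positivity)
      apply add_le_add e3
      exact mul_le_mul_of_nonneg_right e2 hx0
    have e5 : L ^ (q - D) * (A * L ^ D + L ^ (D - 1) * x) = A * L ^ q + L ^ (q - 1) * x := by
      have f1 : L ^ q = L ^ (q - D) * L ^ D := by rw [← pow_add]; congr 1; omega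
      have f2 : L ^ (q - 1) = L ^ (q - D) * L ^ (D - 1) := by rw [← pow_add]; congr 1; omega
      rw [f1, f2]; ring
    set y : ℝ := (3 * A) ^ j * L ^ (1 + j * (q - 1)) with hy
    have hLq : 1 ≤ L ^ (q - 1) := one_le_pow₀ hL1
    have hy0 : 0 ≤ y := by positivity
    have e6 : x ≤ L ^ (q - 1) * y := by nlinarith
    have e7 : L ^ (q - 1) * x ≤ L ^ (q - 1) * y := by
      apply mul_le_mul_of_nonneg_left ih' (by positivity)
    have e8 : A * L ^ q ≤ A * (L ^ (q - 1) * y) := by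
      apply mul_le_mul_of_nonneg_left _ (by linarith)
      have g1 : L ≤ y := by
        have g2 : 1 ≤ (3 * A) ^ j := one_le_pow₀ (by linarith)
        have g3 : L ^ 1 ≤ L ^ (1 + j * (q - 1)) := pow_le_pow_right₀ hL1 (by omega)
        rw [pow_one] at g3
        rw [hy]
        nlinarith
      have g4 : L ^ q = L ^ (q - 1) * L := by
        rw [← pow_succ]; congr 1; omega
      rw [g4]
      exact mul_le_mul_of_nonneg_left g1 (by positivity)
    have e9 : (3 * A) ^ (j + 1) * L ^ (1 + (j + 1) * (q - 1)) =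
        3 * A * (L ^ (q - 1) * y) := by
      rw [hy, show 1 + (j + 1) * (q - 1) = (1 + j * (q - 1)) + (q - 1) by ring,
        pow_add _ (1 + j * (q - 1)), pow_succ]
      ring
    rw [e9]
    have e10 : 0 ≤ L ^ (q - 1) * y := by positivity
    nlinarith

lemma exists_cover (b : ℕ) (U : ℕ → ℤ) (N : ℕ) : ∃ K : Finset ℕ, 0 ∈ K ∧ Cov (Pol b U N) K ∧
    (K.card : ℝ) ≤ 1 + (V b U N : ℝ) := by
  classical
  refine ⟨insert 0 (Pol b U N).support, Finset.mem_insert_self _ _, ?_, ?_⟩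
  · intro i hi
    exact Finset.mem_insert_of_mem (Polynomial.mem_support_iff.2 hi)
  · have hn1 : (n1 (Pol b U N) : ℝ) ≤ (V b U N : ℝ) := by exact_mod_cast n1_Pol_le b U N
    have a1 : (((insert 0 (Pol b U N).support : Finset ℕ).card : ℕ) : ℝ) ≤
        ((Pol b U N).support.card : ℝ) + 1 := by
      exact_mod_cast Finset.card_insert_le _ _
    have a2 : ((Pol b U N).support.card : ℝ) ≤ (n1 (Pol b U N) : ℝ) := by
      exact_mod_cast card_support_le _
    linarith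

/-- the number of exceptional places -/
lemma exists_EE (b : ℕ) (hb : 2 ≤ b) (f : ℤ[X]) (t C0 : ℝ)
    (ht : (f.map (Int.castRingHom ℝ)).eval t = 0) :
    ∃ A : ℝ, 1 ≤ A ∧ ∀ U : ℕ → ℤ, (∀ K, |(U K : ℝ) - (b : ℝ) ^ K * t| ≤ C0) → ∀ N : ℕ, ∀ n ≤ N,
      ((EE b f (Pol b U N) n).card : ℝ) ≤ A * (1 + (V b U N : ℝ)) ^ f.natDegree := by
  obtain ⟨C1, hC1, h1⟩ := exists_bound b hb f t C0 ht
  refine ⟨C1 + 1, by linarith, ?_⟩
  intro U hU N n hn
  have hV0 : (0 : ℝ) ≤ (V b U N : ℝ) := by exact_mod_cast V_nonneg b U _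
  have hn1 : (n1 (Pol b U N) : ℝ) ≤ (V b U N : ℝ) := by exact_mod_cast n1_Pol_le b U N
  have hn0 : (0 : ℝ) ≤ (n1 (Pol b U N) : ℝ) := by exact_mod_cast n1_nonneg _
  have a1 : ((EE b f (Pol b U N) n).card : ℝ) ≤ ((EE b f (Pol b U N) N).card : ℝ) := by
    exact_mod_cast Finset.card_le_card (EE_mono b f _ hn)
  have a2 := card_EE_le b f (Pol b U N) N
  have a3 := h1 N (Pol b U N) (approx_Pol b hb U t C0 hU N)
  have a4 : (1 + (n1 (Pol b U N) : ℝ)) ^ f.natDegree ≤ (1 + (V b U N : ℝ)) ^ f.natDegree :=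
    pow_le_pow_left₀ (by linarith) (by linarith) _
  have a5 : C1 * (1 + (n1 (Pol b U N) : ℝ)) ^ f.natDegree ≤
      (C1 + 1) * (1 + (V b U N : ℝ)) ^ f.natDegree :=
    mul_le_mul (by linarith) a4 (by positivity) (by linarith)
  linarith

theorem rate_of_eis {p b : ℕ} [Fact p.Prime] (hb : 2 ≤ b) (hpb : ¬ p ∣ b) {f : ℤ[X]} {κ r D s : ℕ}
    (hf : Eis f p κ r D) (hs : D ≤ p ^ s) (t : ℝ)
    (ht : (f.map (Int.castRingHom ℝ)).eval t = 0) :
    Rate b t (D + (κ + 1) * (p ^ s - 1)) := by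
  classical
  intro C0
  have hp : p.Prime := Fact.out
  obtain ⟨A, hA1, hEE⟩ := exists_EE b hb f t C0 ht
  set q := p ^ s with hq
  have hq0 : 0 < q := pow_pos hp.pos _
  have hD := hf.two_le
  have hq2 : 2 ≤ q := hD.trans hs
  set τ := D + (κ + 1) * (q - 1) with hτ
  refine ⟨(q : ℝ) ^ (κ + 1) * (A + (3 * A) ^ (κ + 1)), by positivity, ?_⟩
  intro U hU N
  set L : ℝ := 1 + (V b U N : ℝ) with hL
  have hV0 : (0 : ℝ) ≤ (V b U N : ℝ) := by exact_mod_cast V_nonneg b U _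
  have hL1 : 1 ≤ L := by linarith
  obtain ⟨K, h0K, hcov, hKL⟩ := exists_cover b U N
  have hE := hEE U hU N
  rw [hf.deg] at hE
  set P := Pol b U N with hP
  have hK0 : (0 : ℝ) ≤ (K.card : ℝ) := by positivity
  have key := chain hpb hf.pre hs h0K hcov hA1 hL1 hKL hE
  set n := N / q ^ (κ + 1) with hn
  have hqpos : 0 < q ^ (κ + 1) := pow_pos hq0 _
  have hn1' : q ^ (κ + 1) * n ≤ N := Nat.mul_div_le _ _
  have hnN : n ≤ N := Nat.div_le_self _ _
  have htop := top_card hpb hf h0K hcov n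
  have htop' : (n : ℝ) + 1 ≤ ((EE b f P n).card : ℝ) +
      (K.card : ℝ) ^ (D - 1) * ((OO b p P (κ + 1) n).card : ℝ) := by
    exact_mod_cast htop
  have hk := key (κ + 1) le_rfl n hn1'
  have e2 : (K.card : ℝ) ^ (D - 1) ≤ L ^ (D - 1) := pow_le_pow_left₀ hK0 hKL _
  have e3 : (K.card : ℝ) ^ (D - 1) * ((OO b p P (κ + 1) n).card : ℝ) ≤
      L ^ (D - 1) * ((3 * A) ^ (κ + 1) * L ^ (1 + (κ + 1) * (q - 1))) :=
    mul_le_mul e2 hk (by positivity) (by positivity)
  have e4 : L ^ (D - 1) * ((3 * A) ^ (κ + 1) * L ^ (1 + (κ + 1) * (q - 1))) =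
      (3 * A) ^ (κ + 1) * L ^ τ := by
    have : L ^ τ = L ^ (D - 1) * L ^ (1 + (κ + 1) * (q - 1)) := by
      rw [← pow_add]; congr 1; omega
    rw [this]; ring
  have e5 : A * L ^ D ≤ A * L ^ τ := by
    apply mul_le_mul_of_nonneg_left _ (by linarith)
    exact pow_le_pow_right₀ hL1 (by omega)
  have e6 : (n : ℝ) + 1 ≤ (A + (3 * A) ^ (κ + 1)) * L ^ τ := by
    have := hE n hnN
    rw [add_mul]
    linarith
  have e7 : (N : ℝ) ≤ (q : ℝ) ^ (κ + 1) * ((n : ℝ) + 1) := by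
    have : N < q ^ (κ + 1) * (n + 1) := Nat.lt_mul_div_succ N hqpos
    exact_mod_cast this.le
  calc (N : ℝ) ≤ (q : ℝ) ^ (κ + 1) * ((n : ℝ) + 1) := e7
    _ ≤ (q : ℝ) ^ (κ + 1) * ((A + (3 * A) ^ (κ + 1)) * L ^ τ) := by
        apply mul_le_mul_of_nonneg_left e6 (by positivity)
    _ = _ := by ring

end Pool.Agent.U363.EX
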