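import Pool.Agent.U363.EX.Field

/-!
Square roots, `D`-th roots, Eisenstein numbers and fields: the bounds for expansions.
-/

set_option autoImplicit false

namespace Pool.Agent.U363.EX

open Polynomial Finset NumberField IntermediateField

lemma padic_two {d : ℕ} (h : d % 4 = 2) : padicValNat 2 d = 1 := by
  have : Fact (Nat.Prime 2) := ⟨Nat.prime_two⟩
  have h1 : (2 : ℕ) ^ 1 ∣ d := by omega
  have h2 : ¬ (2 : ℕ) ^ 2 ∣ d := by omega
  have hd : d ≠ 0 := by omega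
  rw [padicValNat_dvd_iff_le hd] at h1 h2
  omega

/-- the polynomial of `√d + 1` is Eisenstein at `2` for `d ≡ 3 (mod 4)` -/
lemma eis_three {d : ℕ} (hd : d % 4 = 3) :
    Eis (X ^ 2 + (C (-2) * X + C (1 - (d : ℤ))) : ℤ[X]) 2 0 1 2 := by
  have hlt : (C (-2) * X + C (1 - (d : ℤ)) : ℤ[X]).degree < ((2 : ℕ) : WithBot ℕ) := by
    refine lt_of_le_of_lt degree_linear_le ?_
    norm_num
  have hc0 : (X ^ 2 + (C (-2) * X + C (1 - (d : ℤ))) : ℤ[X]).coeff 0 = 1 - (d : ℤ) := by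
    simp
  have hc1 : (X ^ 2 + (C (-2) * X + C (1 - (d : ℤ))) : ℤ[X]).coeff 1 = -2 := by
    rw [coeff_add, coeff_add, coeff_X_pow, coeff_C_mul, coeff_X, coeff_C]
    norm_num
  refine eis_of_eisenstein (monic_X_pow_add hlt) ?_ le_rfl ?_ ?_
  · compute_degree!
  · intro m hm
    interval_cases m
    · rw [hc0]; push_cast; omega
    · rw [hc1]; norm_num
  · rw [hc0]; push_cast; omega

/-- `√d` for `d ≡ 2, 3 (mod 4)` -/
theorem sqrt_bound {d : ℕ} (hd : d % 4 = 2 ∨ d % 4 = 3) {b : ℕ} (hb : 2 ≤ b) (hb2 : Odd b) (m : ℕ)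
    (q : ℕ → ℤ) (e W v : ℤ) (hW : W ≠ 0) (hv : W * e = ((b : ℤ) - 1) * v)
    (hq : ∑ j ∈ range (m + 1), q j * (b : ℤ) ^ j ≠ 0) :
    Bound b (Real.sqrt d) m q e
      (3 + padicValInt 2 (W * ∑ j ∈ range (m + 1), q j * (b : ℤ) ^ j)) := by
  have hpb : ¬ 2 ∣ b := by
    rw [← even_iff_two_dvd, Nat.not_even_iff_odd]; exact hb2
  have hsq : Real.sqrt d ^ 2 = d := Real.sq_sqrt (by positivity)
  set Λ := W * ∑ j ∈ range (m + 1), q j * (b : ℤ) ^ j with hΛ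
  have hΛ0 : Λ ≠ 0 := mul_ne_zero hW hq
  have hτ : 2 + (0 + padicValInt 2 Λ + 1) * (2 ^ 1 - 1) = 3 + padicValInt 2 Λ := by omega
  rcases hd with hd | hd
  · have hE := eis_root (p := 2) (D := 2) (d := d) Nat.prime_two le_rfl (by omega)
      (by rw [padic_two hd]; omega)
    rw [padic_two hd] at hE
    have := main Nat.prime_two hb hpb hE (s := 1) (by norm_num) (Real.sqrt d)
      (by simp [hsq]) (Real.sqrt d) m q e W v Λ 0 hW hv hΛ0
      (show ((Λ : ℤ) : ℝ) * _ = _ by rw [Int.cast_zero, add_zero])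
    rw [← hτ]
    exact this
  · have hE := eis_three hd
    have := main Nat.prime_two hb hpb hE (s := 1) (by norm_num) (Real.sqrt d + 1)
      (by
        simp only [map_add, map_pow, map_mul, aeval_X, aeval_C]
        simp only [algebraMap_int_eq, eq_intCast]
        push_cast
        linear_combination hsq) (Real.sqrt d) m q e W v Λ (-Λ) hW hv hΛ0
      (show ((Λ : ℤ) : ℝ) * _ = _ by rw [Int.cast_neg]; ring)
    rw [← hτ]
    exact this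

/-- `D`-th roots -/
theorem root_bound {p D d s : ℕ} (hp : p.Prime) (hD : 2 ≤ D) (hd : d ≠ 0)
    (hpd : ¬ D ∣ padicValNat p d) (hs : D ≤ p ^ s) {b : ℕ} (hb : 2 ≤ b) (hpb : ¬ p ∣ b) (x : ℝ)
    (hx : x ^ D = d) (m : ℕ) (q : ℕ → ℤ) (e W v : ℤ) (hW : W ≠ 0)
    (hv : W * e = ((b : ℤ) - 1) * v) (hq : ∑ j ∈ range (m + 1), q j * (b : ℤ) ^ j ≠ 0) :
    Bound b x m q e (D + (padicValNat p d / D +
      padicValInt p (W * ∑ j ∈ range (m + 1), q j * (b : ℤ) ^ j) + 1) * (p ^ s - 1)) := by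
  have hE := eis_root hp hD hd hpd
  set Λ := W * ∑ j ∈ range (m + 1), q j * (b : ℤ) ^ j with hΛ
  exact main hp hb hpb hE hs x (by simp [hx]) x m q e W v Λ 0 hW hv (mul_ne_zero hW hq)
    (show ((Λ : ℤ) : ℝ) * _ = _ by rw [Int.cast_zero, add_zero])

/-- Eisenstein polynomials -/
theorem eisenstein_bound {p D s : ℕ} (hp : p.Prime) {f : ℤ[X]} (hf : f.Monic)
    (hD : f.natDegree = D) (h2 : 2 ≤ D) (hdvd : ∀ m, m < D → (p : ℤ) ∣ f.coeff m)
    (hnot : ¬ (p : ℤ) ^ 2 ∣ f.coeff 0) (hs : D ≤ p ^ s) {b : ℕ} (hb : 2 ≤ b) (hpb : ¬ p ∣ b)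
    (θ : ℝ) (hθ : aeval θ f = 0) (x : ℝ) (m : ℕ) (q : ℕ → ℤ) (e W v Λ a : ℤ) (hW : W ≠ 0)
    (hv : W * e = ((b : ℤ) - 1) * v) (hΛ : Λ ≠ 0)
    (hx : (W * ∑ j ∈ range (m + 1), q j * (b : ℝ) ^ j) * x = Λ * θ + a) :
    Bound b x m q e (D + (padicValInt p Λ + 1) * (p ^ s - 1)) := by
  have hE := eis_of_eisenstein hf hD h2 hdvd hnot
  have := main hp hb hpb hE hs θ hθ x m q e W v Λ a hW hv hΛ (by push_cast; exact hx)
  rwa [Nat.zero_add] at this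

/-- fields -/
theorem field_bound (x : ℝ) (halg : IsAlgebraic ℚ x) (L : Type) [Field L] [NumberField L]
    (φ : L →+* ℚ⟮x⟯) (p : ℕ) (hp : p.Prime)
    (h : ∀ P : Ideal (𝓞 L), P.IsPrime → (p : 𝓞 L) ∈ P → (p : 𝓞 L) ∈ P ^ 2) :
    ∃ κ : ℕ, ∀ s : ℕ, Module.finrank ℚ L ≤ p ^ s → ∀ b : ℕ, 2 ≤ b → ¬ p ∣ b →
      ∀ (m : ℕ) (q : ℕ → ℤ) (e W v : ℤ), W ≠ 0 → W * e = ((b : ℤ) - 1) * v →
      ∑ j ∈ range (m + 1), q j * (b : ℤ) ^ j ≠ 0 →
      Bound b x m q e (((minpoly ℚ x).natDegree - 1) * (2 + (κ + ((minpoly ℚ x).natDegree - 1) *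
        padicValInt p (W * ∑ j ∈ range (m + 1), q j * (b : ℤ) ^ j) + 1) * (p ^ s - 1))) := by
  obtain ⟨κ, hκ⟩ := rate_field x halg L φ p hp h
  refine ⟨κ, ?_⟩
  intro s hs b hb hpb m q e W v hW hv hq
  set Λ := W * ∑ j ∈ range (m + 1), q j * (b : ℤ) ^ j with hΛ
  refine fails_bound b hb x m q e W v hW hv _ ?_
  have := hκ s hs b hb hpb Λ 0 (mul_ne_zero hW hq)
  rwa [Int.cast_zero, add_zero] at this

end Pool.Agent.U363.EX
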