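import Pool.Agent.U363.EX.Core

/-!
The chain of divisibilities by `p, p ^ 2, …, p ^ (κ + 1)`.
-/

set_option autoImplicit false

namespace Pool.Agent.U363.EX

open Polynomial Finset Pool.Agent.H323R2

/-- the exceptional places -/
noncomputable def EE (b : ℕ) (f P : ℤ[X]) (n : ℕ) : Finset ℕ :=
  (range (n + 1)).filter (fun R => S b (f.comp P) R ≠ 0)

/-- the places with a partial sum not divisible by `p ^ j` -/
noncomputable def OO (b p : ℕ) (P : ℤ[X]) (j n : ℕ) : Finset ℕ :=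
  (range (n + 1)).filter (fun R => ¬ ((p : ℤ) ^ j ∣ S b P R))

/-- `f` is monic of degree `D ≥ 2` and its Newton polygon at `p` has the single slope
`κ + r / D`, `0 < r < D` (for `κ = 0` and `r = 1`: `f` is an Eisenstein polynomial at `p`). -/
structure Eis (f : ℤ[X]) (p κ r D : ℕ) : Prop where
  monic : f.Monic
  deg : f.natDegree = D
  two_le : 2 ≤ D
  r_pos : 1 ≤ r
  r_lt : r < D
  coeff_dvd : ∀ m, 1 ≤ m → m < D → (p : ℤ) ^ (κ * (D - m) + 1) ∣ f.coeff m
  coeff_dvd' : ∀ m, 1 ≤ m → m < D → (p : ℤ) ^ (κ * (D - m) + (r + 1 - m)) ∣ f.coeff m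
  zero_dvd : (p : ℤ) ^ (κ * D + r) ∣ f.coeff 0
  zero_not : ¬ (p : ℤ) ^ (κ * D + r + 1) ∣ f.coeff 0

lemma Eis.coeff_dvd0 {f : ℤ[X]} {p κ r D : ℕ} (hf : Eis f p κ r D) (m : ℕ) (hm : m < D) :
    (p : ℤ) ^ (κ * (D - m) + 1) ∣ f.coeff m := by
  rcases Nat.eq_zero_or_pos m with rfl | h
  · refine dvd_trans (pow_dvd_pow _ ?_) hf.zero_dvd
    have := hf.r_pos
    rw [Nat.sub_zero]; omega
  · exact hf.coeff_dvd m h hm

/-- `f` is monic of degree `D` and all roots have `p`-adic valuation larger than `κ` -/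
structure Pre (f : ℤ[X]) (p κ D : ℕ) : Prop where
  monic : f.Monic
  deg : f.natDegree = D
  pos : 1 ≤ D
  coeff_dvd : ∀ m, m < D → (p : ℤ) ^ (κ * (D - m) + 1) ∣ f.coeff m

lemma Eis.pre {f : ℤ[X]} {p κ r D : ℕ} (hf : Eis f p κ r D) : Pre f p κ D :=
  ⟨hf.monic, hf.deg, by have := hf.two_le; omega, hf.coeff_dvd0⟩

lemma isCoprime_pow {p b : ℕ} (hp : p.Prime) (hpb : ¬ p ∣ b) (j : ℕ) :
    IsCoprime ((p : ℤ) ^ j) (b : ℤ) := by
  apply IsCoprime.pow_left
  rw [Nat.isCoprime_iff_coprime]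
  exact (Nat.Prime.coprime_iff_not_dvd hp).2 hpb

/-- Frobenius step -/
lemma frob {p b : ℕ} [Fact p.Prime] (hpb : ¬ p ∣ b) (s : ℕ) (W : ℤ[X]) (R : ℕ)
    (h : (p : ℤ) ∣ S b (W ^ (p ^ s)) R) : (p : ℤ) ∣ S b W (R / p ^ s) := by
  have hF : ((X ^ (p ^ s) : ℤ[X]).map (Int.castRingHom (ZMod p))) = C (1 : ZMod p) * X ^ (p ^ s) := by
    simp
  have h1 := S_comp_mod p b s (X ^ (p ^ s)) W 1 hF R
  rw [Polynomial.X_pow_comp, one_mul] at h1
  rw [← ZMod.intCast_zmod_eq_zero_iff_dvd] at h ⊢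
  rw [h] at h1
  have hb : (b : ZMod p) ≠ 0 := by
    rw [Ne, ZMod.natCast_eq_zero_iff]
    exact hpb
  rcases mul_eq_zero.1 h1.symm with h2 | h2
  · exact absurd h2 (pow_ne_zero _ hb)
  · exact h2

/-- the relation for the divisible part, `j ≤ κ` -/
lemma rel_low {p b : ℕ} [Fact p.Prime] {f : ℤ[X]} {κ D : ℕ} (hf : Pre f p κ D)
    {j : ℕ} (hj : j ≤ κ) {P W : ℤ[X]} {K : Finset ℕ} (h0 : 0 ∈ K) (hP : Cov P K) (hW : Cov W K)
    {R : ℕ} (hR : S b (f.comp P) R = 0)
    (h : ∀ i ∈ T K (D - 1), i ≤ R → S b P (R - i) = (p : ℤ) ^ j * S b W (R - i)) :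
    (p : ℤ) ∣ S b (W ^ D) R := by
  have hp : p.Prime := Fact.out
  have hp0 : (p : ℤ) ≠ 0 := by exact_mod_cast hp.ne_zero
  have hD := hf.pos
  set P' : ℤ[X] := C ((p : ℤ) ^ j) * W with hP'
  have hcov : Cov P' K := by
    intro i hi
    rw [hP', Polynomial.coeff_C_mul] at hi
    exact hW i (right_ne_zero_of_mul hi)
  have h' : ∀ i ∈ T K (D - 1), i ≤ R → S b P (R - i) = S b P' (R - i) := by
    intro i hi hi'
    rw [h i hi hi', hP', S_C_mul]
  have hpow : ∀ m ≤ D, S b (P ^ m) R = (p : ℤ) ^ (j * m) * S b (W ^ m) R := by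
    intro m hm
    rw [replace_pow h0 hP hcov h' m (by omega), hP', mul_pow, ← C_pow, S_C_mul, ← pow_mul]
  rw [S_comp, hf.deg, Finset.sum_range_succ] at hR
  have hlead : f.coeff D = 1 := by
    have := hf.monic.coeff_natDegree
    rwa [hf.deg] at this
  rw [hlead, one_mul, hpow D le_rfl] at hR
  have hdvd : (p : ℤ) ^ (j * D + 1) ∣ ∑ m ∈ range D, f.coeff m * S b (P ^ m) R := by
    apply Finset.dvd_sum
    intro m hm
    rw [Finset.mem_range] at hm
    rw [hpow m hm.le]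
    obtain ⟨c, hc⟩ := hf.coeff_dvd m hm
    rw [hc]
    have e : (p : ℤ) ^ (κ * (D - m) + 1) * c * ((p : ℤ) ^ (j * m) * S b (W ^ m) R) =
        (p : ℤ) ^ (κ * (D - m) + 1 + j * m) * (c * S b (W ^ m) R) := by
      rw [pow_add _ (κ * (D - m) + 1) (j * m)]; ring
    rw [e]
    apply Dvd.dvd.mul_right
    apply pow_dvd_pow
    have h1 : j * (D - m) ≤ κ * (D - m) := Nat.mul_le_mul_right _ hj
    have h2 : j * D = j * (D - m) + j * m := by
      rw [← Nat.mul_add]; congr 1; omega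
    omega
  have h3 : (p : ℤ) ^ (j * D + 1) ∣ (p : ℤ) ^ (j * D) * S b (W ^ D) R := by
    have e : (p : ℤ) ^ (j * D) * S b (W ^ D) R =
        -(∑ m ∈ range D, f.coeff m * S b (P ^ m) R) := by linarith
    rw [e]
    exact (dvd_neg).2 hdvd
  rw [pow_succ] at h3
  exact (mul_dvd_mul_iff_left (pow_ne_zero _ hp0)).1 h3

/-- the last relation, `j = κ + 1`: contradiction -/
lemma rel_top {p b : ℕ} [Fact p.Prime] (hpb : ¬ p ∣ b) {f : ℤ[X]} {κ r D : ℕ} (hf : Eis f p κ r D)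
    {P W : ℤ[X]} {K : Finset ℕ} (h0 : 0 ∈ K) (hP : Cov P K) (hW : Cov W K)
    {R : ℕ} (hR : S b (f.comp P) R = 0)
    (h : ∀ i ∈ T K (D - 1), i ≤ R → S b P (R - i) = (p : ℤ) ^ (κ + 1) * S b W (R - i)) :
    False := by
  have hp : p.Prime := Fact.out
  have hp0 : (p : ℤ) ≠ 0 := by exact_mod_cast hp.ne_zero
  have hD := hf.two_le
  set P' : ℤ[X] := C ((p : ℤ) ^ (κ + 1)) * W with hP'
  have hcov : Cov P' K := by
    intro i hi
    rw [hP', Polynomial.coeff_C_mul] at hi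
    exact hW i (right_ne_zero_of_mul hi)
  have h' : ∀ i ∈ T K (D - 1), i ≤ R → S b P (R - i) = S b P' (R - i) := by
    intro i hi hi'
    rw [h i hi hi', hP', S_C_mul]
  have hpow : ∀ m ≤ D, S b (P ^ m) R = (p : ℤ) ^ ((κ + 1) * m) * S b (W ^ m) R := by
    intro m hm
    rw [replace_pow h0 hP hcov h' m (by omega), hP', mul_pow, ← C_pow, S_C_mul, ← pow_mul]
  rw [S_comp, hf.deg, Finset.sum_range_succ'] at hR
  have hr := hf.r_lt
  have hdvd : (p : ℤ) ^ (κ * D + r + 1) ∣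
      ∑ m ∈ range D, f.coeff (m + 1) * S b (P ^ (m + 1)) R := by
    apply Finset.dvd_sum
    intro m hm
    rw [Finset.mem_range] at hm
    rw [hpow (m + 1) (by omega)]
    rcases Nat.lt_or_ge (m + 1) D with hm1 | hm1
    · obtain ⟨c, hc⟩ := hf.coeff_dvd' (m + 1) (by omega) hm1
      rw [hc]
      have e : (p : ℤ) ^ (κ * (D - (m + 1)) + (r + 1 - (m + 1))) * c *
          ((p : ℤ) ^ ((κ + 1) * (m + 1)) * S b (W ^ (m + 1)) R) =
          (p : ℤ) ^ (κ * (D - (m + 1)) + (r + 1 - (m + 1)) + (κ + 1) * (m + 1)) *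
            (c * S b (W ^ (m + 1)) R) := by
        rw [pow_add _ (κ * (D - (m + 1)) + (r + 1 - (m + 1))) ((κ + 1) * (m + 1))]; ring
      rw [e]
      apply Dvd.dvd.mul_right
      apply pow_dvd_pow
      have h2 : κ * D = κ * (D - (m + 1)) + κ * (m + 1) := by
        rw [← Nat.mul_add]; congr 1; omega
      have h3 : (κ + 1) * (m + 1) = κ * (m + 1) + (m + 1) := by ring
      omega
    · have e : m + 1 = D := by omega
      rw [e]
      apply Dvd.dvd.mul_left
      apply Dvd.dvd.mul_right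
      apply pow_dvd_pow
      have h3 : (κ + 1) * D = κ * D + D := by ring
      omega
  rw [pow_zero, S_one] at hR
  have h4 : (p : ℤ) ^ (κ * D + r + 1) ∣ f.coeff 0 * (b : ℤ) ^ R := by
    have e : f.coeff 0 * (b : ℤ) ^ R =
        -(∑ m ∈ range D, f.coeff (m + 1) * S b (P ^ (m + 1)) R) := by linarith
    rw [e]
    exact (dvd_neg).2 hdvd
  exact hf.zero_not (((isCoprime_pow hp hpb _).pow_right).dvd_of_dvd_mul_right h4)

/-- one step of the chain: inclusion -/
lemma step_sub {p b : ℕ} [Fact p.Prime] (hpb : ¬ p ∣ b) {f : ℤ[X]} {κ D s : ℕ}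
    (hf : Pre f p κ D) (hs : D ≤ p ^ s) {j : ℕ} (hj : j ≤ κ) {P : ℤ[X]} {K : Finset ℕ}
    (h0 : 0 ∈ K) (hP : Cov P K) (n : ℕ) :
    OO b p P (j + 1) n ⊆ OO b p P j (p ^ s * n) ∪
      (range (n + 1)).filter (fun h => p ^ s * h ∈ Finset.image₂ (· + ·) (T K (p ^ s - D))
        (EE b f P (p ^ s * n) ∪
          Finset.image₂ (· + ·) (T K (D - 1)) (OO b p P j (p ^ s * n)))) := by
  classical
  have hp : p.Prime := Fact.out
  have hp0 : (p : ℤ) ≠ 0 := by exact_mod_cast hp.ne_zero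
  set q := p ^ s with hq
  have hq0 : 0 < q := pow_pos hp.pos _
  obtain ⟨W, hW, hsplit⟩ := split b ((p : ℤ) ^ j) (pow_ne_zero _ hp0) (isCoprime_pow hp hpb j) P
    (q * n) K h0 hP
  set B := Finset.image₂ (· + ·) (T K (q - D)) (EE b f P (q * n) ∪
    Finset.image₂ (· + ·) (T K (D - 1)) (OO b p P j (q * n))) with hB
  intro h hh
  rw [Finset.mem_union]
  by_contra hcon
  rw [not_or] at hcon
  obtain ⟨hc1, hc2⟩ := hcon
  unfold OO at hh hc1
  rw [Finset.mem_filter, Finset.mem_range] at hh hc1 hc2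
  have hhn : h ≤ n := by omega
  have hqh : q * h ≤ q * n := Nat.mul_le_mul_left _ hhn
  have hh' : h ≤ q * h := Nat.le_mul_of_pos_left _ hq0
  have hdj : (p : ℤ) ^ j ∣ S b P h := by
    by_contra h1
    exact hc1 ⟨by omega, h1⟩
  have hnB : q * h ∉ B := fun h1 => hc2 ⟨by omega, h1⟩
  -- `p ∣ S b (W ^ q) (q * h)`
  have hWq : (p : ℤ) ∣ S b (W ^ q) (q * h) := by
    have e : W ^ q = W ^ (q - D) * W ^ D := by rw [← pow_add]; congr 1; omega
    rw [e, S_mul]
    apply Finset.dvd_sum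
    intro i hi
    have hi' : i ≤ q * h := Nat.lt_succ_iff.1 (Finset.mem_range.1 hi)
    by_cases hci : (W ^ (q - D)).coeff i = 0
    · rw [hci, zero_mul]; exact dvd_zero _
    have hiT : i ∈ T K (q - D) := cov_pow hW (q - D) i hci
    apply Dvd.dvd.mul_left
    have hnot : q * h - i ∉ EE b f P (q * n) ∪
        Finset.image₂ (· + ·) (T K (D - 1)) (OO b p P j (q * n)) := by
      intro h1
      exact hnB (Finset.mem_image₂.2 ⟨i, hiT, q * h - i, h1, by omega⟩)
    rw [Finset.mem_union, not_or] at hnot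
    obtain ⟨hn1, hn2⟩ := hnot
    refine rel_low hf hj h0 hP hW ?_ ?_
    · by_contra h1
      apply hn1
      unfold EE
      rw [Finset.mem_filter, Finset.mem_range]
      exact ⟨by omega, h1⟩
    · intro i' hi'T hi'le
      apply hsplit _ (by omega)
      by_contra h1
      apply hn2
      refine Finset.mem_image₂.2 ⟨i', hi'T, q * h - i - i', ?_, by omega⟩
      unfold OO
      rw [Finset.mem_filter, Finset.mem_range]
      exact ⟨by omega, h1⟩
  have h2 := frob hpb s W (q * h) hWq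
  rw [← hq, Nat.mul_div_cancel_left _ hq0] at h2
  apply hh.2
  rw [hsplit h (by omega) hdj, pow_succ]
  exact mul_dvd_mul_left _ h2

/-- one step of the chain -/
lemma step_card {p b : ℕ} [Fact p.Prime] (hpb : ¬ p ∣ b) {f : ℤ[X]} {κ D s : ℕ}
    (hf : Pre f p κ D) (hs : D ≤ p ^ s) {j : ℕ} (hj : j ≤ κ) {P : ℤ[X]} {K : Finset ℕ}
    (h0 : 0 ∈ K) (hP : Cov P K) (n : ℕ) :
    (OO b p P (j + 1) n).card ≤ (OO b p P j (p ^ s * n)).card +
      K.card ^ (p ^ s - D) * ((EE b f P (p ^ s * n)).card +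
        K.card ^ (D - 1) * (OO b p P j (p ^ s * n)).card) := by
  classical
  have hp : p.Prime := Fact.out
  set q := p ^ s with hq
  have hq0 : 0 < q := pow_pos hp.pos _
  set B := Finset.image₂ (· + ·) (T K (q - D)) (EE b f P (q * n) ∪
    Finset.image₂ (· + ·) (T K (D - 1)) (OO b p P j (q * n))) with hB
  have hsub : OO b p P (j + 1) n ⊆ OO b p P j (q * n) ∪
      (range (n + 1)).filter (fun h => q * h ∈ B) := step_sub hpb hf hs hj h0 hP n
  have hcardB : B.card ≤ K.card ^ (q - D) * ((EE b f P (q * n)).card +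
      K.card ^ (D - 1) * (OO b p P j (q * n)).card) := by
    refine (Finset.card_image₂_le _ _ _).trans ?_
    refine Nat.mul_le_mul (card_T K _) ?_
    refine (Finset.card_union_le _ _).trans ?_
    apply Nat.add_le_add_left
    refine (Finset.card_image₂_le _ _ _).trans ?_
    exact Nat.mul_le_mul_right _ (card_T K _)
  refine (Finset.card_le_card hsub).trans ?_
  refine (Finset.card_union_le _ _).trans ?_
  apply Nat.add_le_add_left
  refine le_trans ?_ hcardB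
  apply Finset.card_le_card_of_injOn (fun h => q * h)
  · intro h hh
    rw [Finset.mem_coe, Finset.mem_filter] at hh
    exact hh.2
  · intro a _ c _ hac
    exact Nat.eq_of_mul_eq_mul_left hq0 hac

/-- the end of the chain: inclusion -/
lemma top_sub {p b : ℕ} [Fact p.Prime] (hpb : ¬ p ∣ b) {f : ℤ[X]} {κ r D : ℕ}
    (hf : Eis f p κ r D) {P : ℤ[X]} {K : Finset ℕ}
    (h0 : 0 ∈ K) (hP : Cov P K) (n : ℕ) :
    range (n + 1) ⊆ EE b f P n ∪
      Finset.image₂ (· + ·) (T K (D - 1)) (OO b p P (κ + 1) n) := by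
  classical
  have hp : p.Prime := Fact.out
  have hp0 : (p : ℤ) ≠ 0 := by exact_mod_cast hp.ne_zero
  obtain ⟨W, hW, hsplit⟩ := split b ((p : ℤ) ^ (κ + 1)) (pow_ne_zero _ hp0)
    (isCoprime_pow hp hpb (κ + 1)) P n K h0 hP
  intro R hR
  by_contra hcon
  rw [Finset.mem_union, not_or] at hcon
  rw [Finset.mem_range] at hR
  obtain ⟨hn1, hn2⟩ := hcon
  refine rel_top hpb hf h0 hP hW (R := R) ?_ ?_
  · by_contra h1
    apply hn1
    unfold EE
    rw [Finset.mem_filter, Finset.mem_range]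
    exact ⟨by omega, h1⟩
  · intro i' hi'T hi'le
    apply hsplit _ (by omega)
    by_contra h1
    apply hn2
    refine Finset.mem_image₂.2 ⟨i', hi'T, R - i', ?_, by omega⟩
    unfold OO
    rw [Finset.mem_filter, Finset.mem_range]
    exact ⟨by omega, h1⟩

/-- the end of the chain -/
lemma top_card {p b : ℕ} [Fact p.Prime] (hpb : ¬ p ∣ b) {f : ℤ[X]} {κ r D : ℕ}
    (hf : Eis f p κ r D) {P : ℤ[X]} {K : Finset ℕ}
    (h0 : 0 ∈ K) (hP : Cov P K) (n : ℕ) :
    n + 1 ≤ (EE b f P n).card + K.card ^ (D - 1) * (OO b p P (κ + 1) n).card := by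
  classical
  have h1 := Finset.card_le_card (top_sub hpb hf h0 hP n)
  rw [Finset.card_range] at h1
  refine h1.trans ((Finset.card_union_le _ _).trans ?_)
  apply Nat.add_le_add_left
  refine (Finset.card_image₂_le _ _ _).trans ?_
  exact Nat.mul_le_mul_right _ (card_T K _)

end Pool.Agent.U363.EX
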